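import Mathlib
import Pool.Agent.SqrtDC.Defs
import Pool.Agent.SqrtDC.Frob
import Pool.Agent.SqrtDC.Clus

open Finset

namespace Pool.Agent.DigitG

open Pool.Agent.SqrtDC

/-! ## Exactness structure and Frobenius, generic form -/

/-- the bilinear identity: off the neighbourhoods of the two-term sums the truncated square sums are
equal to the non-square `c` -/
structure Ex (p : ℕ) (A : Finset ℕ) (v : ℕ → ZMod p) (c : ZMod p) (N Λ : ℕ) : Prop where
  p2 : p ≠ 2
  zero : 0 ∈ A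
  ns : ∀ x : ZMod p, x * x ≠ c
  ex : ∀ R, R + Λ ≤ N → (∀ e ∈ A, ∀ e' ∈ A, ¬ (R < e + e' ∧ e + e' ≤ R + Λ)) →
      ∑ e ∈ A, ∑ e' ∈ A.filter (fun e' => e + e' ≤ R), v e * v e' = c

variable {p : ℕ} {A : Finset ℕ} {v : ℕ → ZMod p} {c : ZMod p} {N Λ : ℕ}

lemma cum_step [Fact p.Prime] (h : Ex p A v c N Λ) (R m : ℕ) (hN : R + Λ ≤ N)
    (hgood : ∀ s ∈ ss A (m+2), ¬ (R < s ∧ s ≤ R + Λ)) :
    cum R ((gp A v)^(m+2)) = c * cum R ((gp A v)^m) := by
  rw [pow_add, cum_mul]
  have h : ∀ i ∈ range (R+1), ((gp A v)^m).coeff i * cum (R-i) ((gp A v)^2)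
      = c * ((gp A v)^m).coeff i := by
    intro i hi
    rw [Finset.mem_range] at hi
    by_cases h0 : ((gp A v)^m).coeff i = 0
    · rw [h0]; ring
    · have h1 := coeff_gp_pow _ _ _ _ h0
      rw [cum_gp_sq, h.ex (R-i) (by omega)]
      · ring
      · intro e he e' he' hcon
        refine hgood (e + (e' + i)) ?_ (by omega)
        exact Finset.mem_image₂.2 ⟨e, he, e' + i, Finset.mem_image₂.2 ⟨e', he', i, h1, rfl⟩, rfl⟩
  rw [Finset.sum_congr rfl h, ← Finset.mul_sum]
  rfl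

lemma cum_odd [Fact p.Prime] (h : Ex p A v c N Λ) (R : ℕ) (hN : R + Λ ≤ N) (j : ℕ)
    (hgood : ∀ s ∈ ss A (2*j+1), ¬ (R < s ∧ s ≤ R + Λ)) :
    cum R ((gp A v)^(2*j+1)) = c^j * ph A v R := by
  induction j with
  | zero => simp [cum_gp]
  | succ j ih =>
    have h1 : 2*(j+1)+1 = (2*j+1)+2 := by ring
    rw [h1] at hgood ⊢
    rw [cum_step h R (2*j+1) hN hgood, ih, pow_succ]
    · ring
    · intro s hs
      exact hgood s (ss_le _ h.zero (by omega) hs)

/-- key relation modulo an inert prime, off the neighbourhoods of the `p`-fold sums -/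
theorem frob [Fact p.Prime] (h : Ex p A v c N Λ) (R : ℕ) (hN : R + Λ ≤ N)
    (hgood : ∀ s ∈ ss A p, ¬ (R < s ∧ s ≤ R + Λ)) :
    ph A v (R / p) = - ph A v R := by
  have hp2 : p ≠ 2 := h.p2
  have hc0 : c ≠ 0 := by
    intro h0
    apply h.ns 0
    rw [h0, mul_zero]
  have h1 : c^(p/2) = -1 := by
    rcases ZMod.pow_div_two_eq_neg_one_or_one p hc0 with h' | h'
    · exfalso
      obtain ⟨x, hx⟩ := (ZMod.euler_criterion p hc0).2 h'
      exact h.ns x hx.symm
    · exact h'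
  have h2 : p = 2 * (p/2) + 1 := by
    have := (Fact.out : p.Prime).eq_two_or_odd
    omega
  have h3 : cum R ((gp A v)^p) = c^(p/2) * ph A v R := by
    have h4 := cum_odd h R hN (p/2) (by rw [← h2]; exact hgood)
    rw [← h2] at h4
    exact h4
  rw [← cum_gp_pow_p, h3, h1]; ring

/-- every window of length `ρ` contains a good `R` for `p` -/
theorem frob_window [Fact p.Prime] (h : Ex p A v c N Λ) (t ρ : ℕ)
    (ht : #A ≤ t) (hρ : Λ * t^p + 1 ≤ ρ) (a : ℕ) (ha : a + ρ + Λ ≤ N) :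
    ∃ R, a ≤ R ∧ R < a + ρ ∧ ph A v (R / p) = - ph A v R := by
  by_contra hcon
  push Not at hcon
  have hsub : Finset.Ico a (a+ρ) ⊆ (ss A p).biUnion (fun s => Finset.Ico (s - Λ) s) := by
    intro R hR
    rw [Finset.mem_Ico] at hR
    by_contra hR'
    apply hcon R hR.1 hR.2
    apply frob h R (by omega)
    intro s hs hcon2
    apply hR'
    rw [Finset.mem_biUnion]
    exact ⟨s, hs, Finset.mem_Ico.2 ⟨by omega, by omega⟩⟩
  have h1 := Finset.card_le_card hsub
  have h2 : #((ss A p).biUnion (fun s => Finset.Ico (s - Λ) s)) ≤ #(ss A p) * Λ := by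
    apply Finset.card_biUnion_le_card_mul
    intro s _
    rw [Nat.card_Ico]; omega
  have h3 : #(ss A p) ≤ t^p := (ss_card _ _).trans (Nat.pow_le_pow_left ht p)
  rw [Nat.card_Ico] at h1
  have h4 : #(ss A p) * Λ ≤ t^p * Λ := Nat.mul_le_mul_right _ h3
  have h5 : t^p * Λ = Λ * t^p := mul_comm _ _
  omega

theorem dyn_of_coarse {K : Type*} [Field K] [DecidableEq K] (h2 : (2:K) ≠ 0) (c₀ : K)
    (hsq : ∀ a : K, a * a ≠ c₀) (V : Finset ℕ) (m : ℕ → K) (hm : ∀ x ∈ V, m x ≠ 0) (N W : ℕ)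
    (hW : 1 ≤ W)
    (hgood : ∀ a, a + W ≤ N → ∃ R, a ≤ R ∧ R < a + W ∧
      ∑ x ∈ V, ∑ x' ∈ V.filter (fun x' => x + x' ≤ R), m x * m x' = c₀) : Dyn V N W := by
  constructor
  · intro c hc
    obtain ⟨R, hR1, hR2, hsum⟩ := hgood (2*c) hc
    by_contra hcon
    push Not at hcon
    apply hsq (∑ x ∈ V.filter (fun x => x ≤ c), m x)
    rw [← hsum, Finset.sum_mul_sum, Finset.sum_filter]
    refine Finset.sum_congr rfl fun x hx => ?_
    by_cases hxc : x ≤ c
    · rw [if_pos hxc]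
      apply Finset.sum_congr _ (fun _ _ => rfl)
      ext y
      simp only [Finset.mem_filter]
      constructor
      · rintro ⟨hy, hyc⟩
        exact ⟨hy, by omega⟩
      · rintro ⟨hy, hyc⟩
        refine ⟨hy, ?_⟩
        by_contra h
        have := hcon y hy (by omega)
        omega
    · rw [if_neg hxc]
      symm
      apply Finset.sum_eq_zero
      intro y hy
      exfalso
      have := hcon x hx (by omega)
      have h2 := (Finset.mem_filter.mp hy).2
      omega
  · intro x hx y hy hxy hix hiy hN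
    have hsep := hix y hy (Ne.symm hxy)
    have hlarge : W < x + y := by
      rcases hsep with h | h <;> omega
    obtain ⟨R1, hR1a, hR1b, hs1⟩ := hgood (x + y - W) (by omega)
    obtain ⟨R2, hR2a, hR2b, hs2⟩ := hgood (x + y) (by omega)
    by_contra hcon
    push Not at hcon
    -- characterisation of the pairs in the window
    have key : ∀ z ∈ V, ∀ z' ∈ V, R1 < z + z' → z + z' ≤ R2 →
        (z = x ∧ z' = y) ∨ (z = y ∧ z' = x) := by
      intro z hz z' hz' h1 h2
      have hA : z = x → z' = y := by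
        intro h
        by_contra hne
        rcases hiy z' hz' hne with h' | h' <;> omega
      have hB : z = y → z' = x := by
        intro h
        by_contra hne
        rcases hix z' hz' hne with h' | h' <;> omega
      have hC : z' = x → z = y := by
        intro h
        by_contra hne
        rcases hiy z hz hne with h' | h' <;> omega
      have hD : z' = y → z = x := by
        intro h
        by_contra hne
        rcases hix z hz hne with h' | h' <;> omega
      by_cases c1 : z = x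
      · exact Or.inl ⟨c1, hA c1⟩
      by_cases c2 : z = y
      · exact Or.inr ⟨c2, hB c2⟩
      by_cases c3 : z' = x
      · exact Or.inr ⟨hC c3, c3⟩
      by_cases c4 : z' = y
      · exact Or.inl ⟨hD c4, c4⟩
      exfalso
      have := hcon z hz z' hz' c1 c2 c3 c4 (by omega)
      omega
    -- as a sum over the product
    have conv : ∀ R, ∑ z ∈ V, ∑ z' ∈ V.filter (fun z' => z + z' ≤ R), m z * m z'
        = ∑ q ∈ (V ×ˢ V).filter (fun q => q.1 + q.2 ≤ R), m q.1 * m q.2 := by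
      intro R
      rw [Finset.sum_filter, Finset.sum_product]
      refine Finset.sum_congr rfl fun z _ => ?_
      rw [Finset.sum_filter]
    rw [conv] at hs1 hs2
    have hsplit : (V ×ˢ V).filter (fun q => q.1 + q.2 ≤ R2)
        = (V ×ˢ V).filter (fun q => q.1 + q.2 ≤ R1) ∪ {(x, y), (y, x)} := by
      ext ⟨z, z'⟩
      simp only [Finset.mem_filter, Finset.mem_product, Finset.mem_union, Finset.mem_insert,
        Finset.mem_singleton, Prod.mk.injEq]
      constructor
      · rintro ⟨⟨hz, hz'⟩, hle⟩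
        by_cases h : z + z' ≤ R1
        · exact Or.inl ⟨⟨hz, hz'⟩, h⟩
        · exact Or.inr (key z hz z' hz' (by omega) hle)
      · rintro (⟨⟨hz, hz'⟩, hle⟩ | ⟨rfl, rfl⟩ | ⟨rfl, rfl⟩)
        · exact ⟨⟨hz, hz'⟩, by omega⟩
        · exact ⟨⟨hx, hy⟩, by omega⟩
        · exact ⟨⟨hy, hx⟩, by omega⟩
    have hdisj : Disjoint ((V ×ˢ V).filter (fun q => q.1 + q.2 ≤ R1))
        ({(x, y), (y, x)} : Finset (ℕ × ℕ)) := by
      rw [Finset.disjoint_left]
      rintro ⟨z, z'⟩ h1 h2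
      simp only [Finset.mem_filter, Finset.mem_insert, Finset.mem_singleton, Prod.mk.injEq] at h1 h2
      rcases h2 with ⟨rfl, rfl⟩ | ⟨rfl, rfl⟩ <;> omega
    rw [hsplit, Finset.sum_union hdisj, hs1, Finset.sum_pair (by
      intro h
      simp only [Prod.mk.injEq] at h
      exact hxy h.1)] at hs2
    have h0 : 2 * (m x * m y) = 0 := by
      have : c₀ + (m x * m y + m y * m x) = c₀ := hs2
      linear_combination this
    rcases mul_eq_zero.mp h0 with h | h
    · exact h2 h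
    · rcases mul_eq_zero.mp h with h | h
      · exact hm x hx h
      · exact hm y hy h

lemma Ex.two_ne [Fact p.Prime] (h : Ex p A v c N Λ) : (2 : ZMod p) ≠ 0 := by
  have hd : ¬ p ∣ 2 := by
    intro h'
    exact h.p2 ((Nat.prime_dvd_prime_iff_eq Fact.out Nat.prime_two).mp h')
  intro h'
  apply hd
  rw [← ZMod.natCast_eq_zero_iff]
  exact_mod_cast h'

/-- conclusion for the visible clusters modulo an inert prime -/
theorem dyn_vis [Fact p.Prime] (h : Ex p A v c N Λ) (t γ W N' : ℕ)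
    (ht : #A ≤ t) (hW : Λ*t^2 + 2*t^3*γ + 1 ≤ W) (hN' : N' + Λ ≤ N) :
    Dyn (vis A v γ) N' W := by
  refine dyn_of_coarse (K := ZMod p) h.two_ne c h.ns _ (mass A v γ) ?_ N' W (by omega) ?_
  · intro x hx
    exact (Finset.mem_filter.mp hx).2
  · intro a ha
    exact coarse A h.zero v c N Λ γ W t ht hW h.ex a (by omega)

theorem n1 [Fact p.Prime] (h : Ex p A v c N Λ) (t γ W : ℕ)
    (ht : #A ≤ t) (hW : Λ*t^2 + 2*t^3*γ + 1 ≤ W) (σ : ℕ) (hσ : W ≤ σ)
    (hσN : σ + W + Λ ≤ N) :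
    ∃ α β : ℕ, α ≤ σ ∧ σ ≤ β ∧ σ ≤ α + W ∧ β ≤ σ + W ∧
      ∑ x ∈ ((vis A v γ) ×ˢ (vis A v γ)).filter
        (fun x => α ≤ x.1 + x.2 ∧ x.1 + x.2 ≤ β),
        mass A v γ x.1 * mass A v γ x.2 = 0 := by
  have hco := coarse A h.zero v c N Λ γ W t ht hW h.ex
  obtain ⟨R1, h1a, h1b, hs1⟩ := hco (σ - W) (by omega)
  obtain ⟨R2, h2a, h2b, hs2⟩ := hco σ hσN
  refine ⟨R1 + 1, R2, by omega, h2a, by omega, by omega, ?_⟩
  set V := vis A v γ with hV
  set mm := mass A v γ with hmm
  have conv : ∀ R, ∑ z ∈ V, ∑ z' ∈ V.filter (fun z' => z + z' ≤ R), mm z * mm z'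
      = ∑ q ∈ (V ×ˢ V).filter (fun q => q.1 + q.2 ≤ R), mm q.1 * mm q.2 := by
    intro R
    rw [Finset.sum_filter, Finset.sum_product]
    refine Finset.sum_congr rfl fun z _ => ?_
    rw [Finset.sum_filter]
  rw [conv] at hs1 hs2
  have hsplit : (V ×ˢ V).filter (fun q => q.1 + q.2 ≤ R2)
      = (V ×ˢ V).filter (fun q => q.1 + q.2 ≤ R1) ∪
        (V ×ˢ V).filter (fun q => R1 + 1 ≤ q.1 + q.2 ∧ q.1 + q.2 ≤ R2) := by
    ext q
    simp only [Finset.mem_filter, Finset.mem_union]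
    constructor
    · rintro ⟨hq, hle⟩
      by_cases h : q.1 + q.2 ≤ R1
      · exact Or.inl ⟨hq, h⟩
      · exact Or.inr ⟨hq, by omega, hle⟩
    · rintro (⟨hq, hle⟩ | ⟨hq, _, hle⟩)
      · exact ⟨hq, by omega⟩
      · exact ⟨hq, hle⟩
  have hdisj : Disjoint ((V ×ˢ V).filter (fun q => q.1 + q.2 ≤ R1))
      ((V ×ˢ V).filter (fun q => R1 + 1 ≤ q.1 + q.2 ∧ q.1 + q.2 ≤ R2)) := by
    rw [Finset.disjoint_left]
    intro q h1 h2
    rw [Finset.mem_filter] at h1 h2
    have := h1.2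
    have := h2.2.1
    omega
  rw [hsplit, Finset.sum_union hdisj, hs1] at hs2
  linear_combination hs2

end Pool.Agent.DigitG
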