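import Mathlib
import Pool.Agent.DigitG.Frob

open Finset

namespace Pool.Agent.DigitG

open Pool.Agent.SqrtDC

/-! ## Real number input for a bounded integer digit expansion of `a√2` -/

/-- `a√2 = Σ d k / 2^k` with `|d k| ≤ B`, `d 0 ≠ 0`, `a ≥ 1` -/
structure Dig (a B : ℕ) (d : ℕ → ℤ) : Prop where
  pos : 1 ≤ a
  zero : d 0 ≠ 0
  bd : ∀ k, |d k| ≤ B
  sum : HasSum (fun k => (d k : ℝ) / 2^k) (a * Real.sqrt 2)

/-- `DD d R = Σ_{e ≤ R} d e * 2^(R-e)` -/
def DD (d : ℕ → ℤ) (R : ℕ) : ℤ := ∑ e ∈ range (R+1), d e * 2^(R-e)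

/-- support up to `N` -/
def EE (d : ℕ → ℤ) (N : ℕ) : Finset ℕ := (range (N+1)).filter (fun e => d e ≠ 0)

/-- finite version up to `N`: what is used of a digit expansion of `a√2` -/
structure DigN (a B N : ℕ) (d : ℕ → ℤ) : Prop where
  pos : 1 ≤ a
  zero : d 0 ≠ 0
  bd : ∀ k ≤ N, |d k| ≤ B
  app : ∀ M ≤ N, |(DD d M : ℝ) - a * Real.sqrt 2 * 2^M| ≤ B

/-- masses modulo `p` -/
def vd (d : ℕ → ℤ) (p : ℕ) (e : ℕ) : ZMod p := (d e : ZMod p) * (2⁻¹ : ZMod p)^e

variable {a B : ℕ} {d : ℕ → ℤ}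

lemma DD_real (d : ℕ → ℤ) (M : ℕ) :
    (DD d M : ℝ) = 2^M * ∑ e ∈ range (M+1), (d e : ℝ) / 2^e := by
  unfold DD
  push_cast
  rw [Finset.mul_sum]
  refine Finset.sum_congr rfl fun e he => ?_
  have hle : e ≤ M := by simpa [Nat.lt_succ_iff] using Finset.mem_range.1 he
  have h1 : (2:ℝ)^M = 2^(M-e) * 2^e := by rw [← pow_add]; congr 1; omega
  rw [h1]
  field_simp

lemma DD_sub_abs (h : Dig a B d) (M : ℕ) : |(DD d M : ℝ) - a * Real.sqrt 2 * 2^M| ≤ B := by
  have h1 := h.sum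
  have h2 : Summable (fun k => (d k : ℝ) / 2^k) := h1.summable
  have h3 := h2.sum_add_tsum_nat_add (M+1)
  rw [h1.tsum_eq] at h3
  have hg : HasSum (fun k : ℕ => (B : ℝ) / 2^(M+1) * (1/2)^k) (B / 2^M) := by
    have h9 := (hasSum_geometric_two).mul_left ((B : ℝ) / 2^(M+1))
    have h10 : (B : ℝ) / 2^(M+1) * 2 = B / 2^M := by rw [pow_succ]; field_simp
    rw [h10] at h9
    exact h9
  have h4 : ‖∑' k, (d (k + (M+1)) : ℝ) / 2^(k + (M+1))‖ ≤ B / 2^M := by
    apply tsum_of_norm_bounded hg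
    intro k
    rw [Real.norm_eq_abs, abs_div, abs_of_pos (by positivity : (0:ℝ) < 2^(k + (M+1)))]
    have h5 : |(d (k + (M+1)) : ℝ)| ≤ B := by
      have := h.bd (k + (M+1))
      exact_mod_cast this
    calc |(d (k + (M+1)) : ℝ)| / 2^(k + (M+1)) ≤ B / 2^(k + (M+1)) := by gcongr
      _ = (B : ℝ) / 2^(M+1) * (1/2)^k := by
          rw [pow_add, one_div, inv_pow]; field_simp
  rw [Real.norm_eq_abs] at h4
  have h5 : (DD d M : ℝ) - a * Real.sqrt 2 * 2^M
      = - (2^M * ∑' k, (d (k + (M+1)) : ℝ) / 2^(k + (M+1))) := by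
    rw [DD_real, ← h3]; ring
  rw [h5, abs_neg, abs_mul, abs_of_pos (by positivity : (0:ℝ) < 2^M)]
  calc (2:ℝ)^M * |∑' k, (d (k + (M+1)) : ℝ) / 2^(k + (M+1))| ≤ 2^M * (B / 2^M) := by gcongr
    _ = B := by field_simp

lemma Dig.toN (h : Dig a B d) (N : ℕ) : DigN a B N d :=
  ⟨h.pos, h.zero, fun k _ => h.bd k, fun M _ => DD_sub_abs h M⟩

lemma DD_sq_abs {N : ℕ} (h : DigN a B N d) (M : ℕ) (hM : M ≤ N) :
    |DD d M ^ 2 - 2 * (a:ℤ)^2 * 4^M| ≤ ((B:ℤ)^2 + 3*a*B) * 2^M := by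
  have h1 := h.app M hM
  have hs0 : (0:ℝ) ≤ Real.sqrt 2 := Real.sqrt_nonneg 2
  have hs : Real.sqrt 2 ^ 2 = 2 := Real.sq_sqrt (by norm_num)
  have h3 : Real.sqrt 2 < 3/2 := by
    rw [Real.sqrt_lt' (by norm_num)]; norm_num
  have hp : (1:ℝ) ≤ 2^M := one_le_pow₀ (by norm_num)
  set s : ℝ := a * Real.sqrt 2 * 2^M with hsdef
  have hss : s^2 = 2 * (a:ℝ)^2 * 4^M := by
    rw [hsdef, mul_pow, mul_pow, hs, ← pow_mul, mul_comm M 2, pow_mul]; norm_num; ring
  have hsb : s ≤ 3/2 * a * 2^M := by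
    rw [hsdef]
    have : (a:ℝ) * Real.sqrt 2 ≤ 3/2 * a := by
      have : (0:ℝ) ≤ a := by positivity
      nlinarith
    exact mul_le_mul_of_nonneg_right this (by positivity)
  have hs0' : 0 ≤ s := by positivity
  have hB : (0:ℝ) ≤ B := by positivity
  have h5 : |(DD d M : ℝ) + s| ≤ (B + 3*a) * 2^M := by
    have : |(DD d M : ℝ) + s| ≤ |(DD d M : ℝ) - s| + |2 * s| := by
      have : (DD d M : ℝ) + s = ((DD d M : ℝ) - s) + 2 * s := by ring
      rw [this]; exact abs_add_le _ _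
    rw [abs_of_nonneg (by positivity : (0:ℝ) ≤ 2 * s)] at this
    have hB2 : (B:ℝ) ≤ B * 2^M := le_mul_of_one_le_right hB hp
    nlinarith
  have h6 : |(DD d M : ℝ)^2 - 2 * (a:ℝ)^2 * 4^M| ≤ ((B:ℝ)^2 + 3*a*B) * 2^M := by
    rw [← hss, show (DD d M : ℝ)^2 - s^2 = ((DD d M : ℝ) - s) * ((DD d M : ℝ) + s) by ring, abs_mul]
    calc |(DD d M : ℝ) - s| * |(DD d M : ℝ) + s| ≤ B * ((B + 3*a) * 2^M) :=
          mul_le_mul h1 h5 (abs_nonneg _) hB
      _ = _ := by ring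
  have h7 : ((|DD d M ^ 2 - 2 * (a:ℤ)^2 * 4^M| : ℤ) : ℝ) ≤ ((((B:ℤ)^2 + 3*a*B) * 2^M : ℤ) : ℝ) := by
    push_cast; exact h6
  exact_mod_cast h7

/-- the sum over `EE d N` as a sum over a range -/
lemma sum_EE_range (d : ℕ → ℤ) (R M N : ℕ) (hR : R ≤ M) (hM : M ≤ N) :
    ∑ e ∈ EE d N, ∑ e' ∈ (EE d N).filter (fun e' => e + e' ≤ R), d e * d e' * 2^(R - (e + e'))
      = ∑ e ∈ range (M+1), ∑ e' ∈ range (M+1),
          if e + e' ≤ R then d e * d e' * 2^(R - (e + e')) else 0 := by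
  have h1 : ∀ e, ∑ e' ∈ (EE d N).filter (fun e' => e + e' ≤ R), d e * d e' * 2^(R - (e + e'))
      = ∑ e' ∈ range (M+1), if e + e' ≤ R then d e * d e' * 2^(R - (e + e')) else 0 := by
    intro e
    rw [Finset.sum_filter]
    unfold EE
    rw [Finset.sum_filter]
    have h3 : ∑ a ∈ range (N+1), (if d a ≠ 0 then
        (if e + a ≤ R then d e * d a * 2^(R - (e + a)) else 0) else 0)
        = ∑ a ∈ range (N+1), (if e + a ≤ R then d e * d a * 2^(R - (e + a)) else 0) := by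
      refine Finset.sum_congr rfl fun a _ => ?_
      by_cases h : d a = 0
      · simp [h]
      · simp [h]
    rw [h3]
    symm
    apply Finset.sum_subset
    · intro x hx; simp only [mem_range] at hx ⊢; omega
    · intro x _ hx'
      simp only [mem_range, not_lt] at hx'
      rw [if_neg (by omega)]
  rw [Finset.sum_congr rfl fun e _ => h1 e]
  unfold EE
  rw [Finset.sum_filter]
  have h3 : ∑ a ∈ range (N+1), (if d a ≠ 0 then
      ∑ e' ∈ range (M+1), (if a + e' ≤ R then d a * d e' * 2^(R - (a + e')) else 0) else 0)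
      = ∑ a ∈ range (N+1),
        ∑ e' ∈ range (M+1), (if a + e' ≤ R then d a * d e' * 2^(R - (a + e')) else 0) := by
    refine Finset.sum_congr rfl fun a _ => ?_
    by_cases h : d a = 0
    · simp [h]
    · simp [h]
  rw [h3]
  symm
  apply Finset.sum_subset
  · intro x hx; simp only [mem_range] at hx ⊢; omega
  · intro x _ hx'
    simp only [mem_range, not_lt] at hx'
    refine Finset.sum_eq_zero fun y _ => ?_
    rw [if_neg (by omega)]

/-- exactness of 2-sums -/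
theorem exact2 {N : ℕ} (h : DigN a B N d) (R Λ : ℕ) (hN : R + Λ ≤ N)
    (hΛ : (N+2) * (B^2 + 3*a*B + 1) ≤ 2^Λ)
    (hgood : ∀ e ∈ EE d N, ∀ e' ∈ EE d N, ¬ (R < e + e' ∧ e + e' ≤ R + Λ)) :
    ∑ e ∈ EE d N, ∑ e' ∈ (EE d N).filter (fun e' => e + e' ≤ R), d e * d e' * 2^(R - (e + e'))
      = 2 * (a:ℤ)^2 * 2^R := by
  set M := R + Λ with hM
  rw [sum_EE_range d R M N (by omega) hN]
  set C : ℤ := ∑ e ∈ range (M+1), ∑ e' ∈ range (M+1),
          if e + e' ≤ R then d e * d e' * 2^(R - (e + e')) else 0 with hC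
  have hD : DD d M ^ 2 = ∑ e ∈ range (M+1), ∑ e' ∈ range (M+1),
      (d e * 2^(M-e)) * (d e' * 2^(M-e')) := by
    rw [sq, DD, Finset.sum_mul_sum]
  have hdiff : DD d M ^ 2 - 2^(M+Λ) * C = ∑ e ∈ range (M+1), ∑ e' ∈ (range (M+1)).filter
      (fun e' => M < e + e'), (d e * 2^(M-e)) * (d e' * 2^(M-e')) := by
    rw [hD, hC, Finset.mul_sum, ← Finset.sum_sub_distrib]
    refine Finset.sum_congr rfl fun e he => ?_
    rw [Finset.mul_sum, ← Finset.sum_sub_distrib, Finset.sum_filter]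
    refine Finset.sum_congr rfl fun e' he' => ?_
    have he1 : e ≤ M := by simpa [Nat.lt_succ_iff] using Finset.mem_range.1 he
    have he2 : e' ≤ M := by simpa [Nat.lt_succ_iff] using Finset.mem_range.1 he'
    by_cases h1 : e + e' ≤ R
    · rw [if_pos h1, if_neg (by omega)]
      have h2 : (2:ℤ)^(M-e) * 2^(M-e') = 2^(M+Λ) * 2^(R-(e+e')) := by
        rw [← pow_add, ← pow_add]; congr 1; omega
      have h3 : (d e * 2^(M-e)) * (d e' * 2^(M-e')) = d e * d e' * (2^(M-e) * 2^(M-e')) := by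
        ring
      rw [h3, h2]; ring
    · rw [if_neg h1]
      by_cases h2 : M < e + e'
      · rw [if_pos h2]; ring
      · rw [if_neg h2]
        have h3 : d e = 0 ∨ d e' = 0 := by
          by_contra hcon
          push Not at hcon
          have m1 : e ∈ EE d N := by
            simp only [EE, mem_filter, mem_range]; exact ⟨by omega, hcon.1⟩
          have m2 : e' ∈ EE d N := by
            simp only [EE, mem_filter, mem_range]; exact ⟨by omega, hcon.2⟩
          exact hgood e m1 e' m2 ⟨by omega, by omega⟩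
        rcases h3 with h3 | h3 <;> rw [h3] <;> ring
  have hB0 : (0:ℤ) ≤ B := by positivity
  have hb : |DD d M ^ 2 - 2^(M+Λ) * C| ≤ ((M:ℤ)+1) * ((B:ℤ)^2 * 2^M) := by
    rw [hdiff]
    calc |∑ e ∈ range (M+1), ∑ e' ∈ (range (M+1)).filter
            (fun e' => M < e + e'), (d e * 2^(M-e)) * (d e' * 2^(M-e'))|
        ≤ ∑ e ∈ range (M+1), |∑ e' ∈ (range (M+1)).filter
            (fun e' => M < e + e'), (d e * 2^(M-e)) * (d e' * 2^(M-e'))| :=
          Finset.abs_sum_le_sum_abs _ _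
      _ ≤ ∑ e ∈ range (M+1), ((B:ℤ)^2 * (2:ℤ)^M) := by
          refine Finset.sum_le_sum fun e he => ?_
          have he1 : e ≤ M := by simpa [Nat.lt_succ_iff] using Finset.mem_range.1 he
          calc |∑ e' ∈ (range (M+1)).filter
                (fun e' => M < e + e'), (d e * 2^(M-e)) * (d e' * 2^(M-e'))|
              ≤ ∑ e' ∈ (range (M+1)).filter (fun e' => M < e + e'),
                  |(d e * 2^(M-e)) * (d e' * 2^(M-e'))| := Finset.abs_sum_le_sum_abs _ _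
            _ ≤ ∑ e' ∈ (range (M+1)).filter (fun e' => M < e + e'),
                  ((B:ℤ)^2 * (2:ℤ)^(M-e)) * 2^(M-e') := by
                refine Finset.sum_le_sum fun e' he' => ?_
                have he2 : e' ≤ M := by
                  have := Finset.mem_range.1 (Finset.mem_filter.1 he').1
                  omega
                rw [abs_mul, abs_mul, abs_mul]
                have p1 : |(2:ℤ)^(M-e)| = 2^(M-e) := abs_of_nonneg (by positivity)
                have p2 : |(2:ℤ)^(M-e')| = 2^(M-e') := abs_of_nonneg (by positivity)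
                rw [p1, p2]
                have q1 : |d e| * 2^(M-e) ≤ B * 2^(M-e) :=
                  mul_le_mul_of_nonneg_right (h.bd e (by omega)) (by positivity)
                have q2 : |d e'| * 2^(M-e') ≤ B * 2^(M-e') :=
                  mul_le_mul_of_nonneg_right (h.bd e' (by omega)) (by positivity)
                calc |d e| * 2^(M-e) * (|d e'| * 2^(M-e'))
                    ≤ (B * 2^(M-e)) * (B * 2^(M-e')) := mul_le_mul q1 q2 (by positivity)
                      (by positivity)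
                  _ = _ := by ring
            _ = ((B:ℤ)^2 * 2^(M-e)) * ∑ e' ∈ (range (M+1)).filter (fun e' => M < e + e'),
                  (2:ℤ)^(M-e') := by rw [Finset.mul_sum]
            _ ≤ ((B:ℤ)^2 * 2^(M-e)) * 2^e :=
                mul_le_mul_of_nonneg_left (geom_tail M e he1) (by positivity)
            _ = (B:ℤ)^2 * 2^M := by rw [mul_assoc, ← pow_add]; congr 2; omega
      _ = ((M:ℤ)+1) * ((B:ℤ)^2 * 2^M) := by simp
  have hsq := DD_sq_abs h M hN
  have htot : |2^(M+Λ) * (C - 2 * (a:ℤ)^2 * 2^R)| ≤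
      (((M:ℤ)+1) * (B:ℤ)^2 + ((B:ℤ)^2 + 3*a*B)) * 2^M := by
    have e1 : (2:ℤ)^(M+Λ) * (C - 2 * (a:ℤ)^2 * 2^R)
        = (DD d M ^ 2 - 2 * (a:ℤ)^2 * 4^M) - (DD d M ^ 2 - 2^(M+Λ) * C) := by
      have e2 : (2:ℤ)^(M+Λ) * (2 * (a:ℤ)^2 * 2^R) = 2 * (a:ℤ)^2 * 4^M := by
        rw [show (4:ℤ) = 2^2 by norm_num, ← pow_mul, mul_left_comm, ← pow_add]
        congr 2; omega
      rw [mul_sub, e2]; ring
    rw [e1]
    calc |(DD d M ^ 2 - 2 * (a:ℤ)^2 * 4^M) - (DD d M ^ 2 - 2^(M+Λ) * C)|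
        ≤ |DD d M ^ 2 - 2 * (a:ℤ)^2 * 4^M| + |DD d M ^ 2 - 2^(M+Λ) * C| := abs_sub _ _
      _ ≤ ((B:ℤ)^2 + 3*a*B) * 2^M + ((M:ℤ)+1) * ((B:ℤ)^2 * 2^M) := add_le_add hsq hb
      _ = _ := by ring
  by_contra hne
  have h1 : 1 ≤ |C - 2 * (a:ℤ)^2 * 2^R| := Int.one_le_abs (sub_ne_zero.2 hne)
  rw [abs_mul, abs_of_nonneg (by positivity : (0:ℤ) ≤ 2^(M+Λ)), pow_add, mul_assoc] at htot
  have h2 : (2:ℤ)^M * (2^Λ * 1) ≤ 2^M * (((M:ℤ)+1) * (B:ℤ)^2 + ((B:ℤ)^2 + 3*a*B)) := by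
    calc (2:ℤ)^M * (2^Λ * 1) ≤ 2^M * (2^Λ * |C - 2 * (a:ℤ)^2 * 2^R|) := by gcongr
      _ ≤ (((M:ℤ)+1) * (B:ℤ)^2 + ((B:ℤ)^2 + 3*a*B)) * 2^M := htot
      _ = _ := by ring
  have h3 : (2:ℤ)^Λ * 1 ≤ ((M:ℤ)+1) * (B:ℤ)^2 + ((B:ℤ)^2 + 3*a*B) :=
    le_of_mul_le_mul_left h2 (by positivity)
  have h4 : ((N:ℤ)+2) * ((B:ℤ)^2 + 3*a*B + 1) ≤ 2^Λ := by exact_mod_cast hΛ
  have h5 : (M : ℤ) ≤ N := by exact_mod_cast hN
  have h6 : (0:ℤ) ≤ N := by positivity
  have h7 : (0:ℤ) ≤ 3*a*B := by positivity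
  have h8 : (0:ℤ) ≤ (B:ℤ)^2 := by positivity
  nlinarith

/-- the exactness structure modulo an inert prime `p ∤ a` -/
theorem ex_of_dig {N : ℕ} (h : DigN a B N d) (p : ℕ) [Fact p.Prime] (hp : p % 8 = 3 ∨ p % 8 = 5)
    (hpa : a < p) (Λ : ℕ) (hΛ : (N+2) * (B^2 + 3*a*B + 1) ≤ 2^Λ) :
    Ex p (EE d N) (vd d p) (2 * (a:ZMod p)^2) N Λ := by
  have hp2 : p ≠ 2 := by rintro rfl; omega
  have h20 : (2 : ZMod p) ≠ 0 := by
    intro h0
    have : ((2:ℕ) : ZMod p) = 0 := by exact_mod_cast h0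
    rw [ZMod.natCast_eq_zero_iff] at this
    have := (Nat.prime_dvd_prime_iff_eq (Fact.out : p.Prime) Nat.prime_two).1 this
    exact hp2 this
  have ha0 : (a : ZMod p) ≠ 0 := by
    intro h0
    rw [ZMod.natCast_eq_zero_iff] at h0
    have := Nat.le_of_dvd (by have := h.pos; omega) h0
    omega
  refine ⟨hp2, ?_, ?_, ?_⟩
  · simp [EE, h.zero]
  · intro x hx
    have h1 : IsSquare (2 : ZMod p) := by
      refine ⟨x / a, ?_⟩
      field_simp
      rw [pow_two, pow_two] at *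
      linear_combination -hx
    have := (ZMod.exists_sq_eq_two_iff hp2).mp h1
    omega
  · intro R hN hgood
    have hh := exact2 h R Λ hN hΛ hgood
    have h2 : ((∑ e ∈ EE d N, ∑ e' ∈ (EE d N).filter (fun e' => e + e' ≤ R),
        d e * d e' * 2^(R - (e + e')) : ℤ) : ZMod p) = ((2 * (a:ℤ)^2 * 2^R : ℤ) : ZMod p) := by
      rw [hh]
    push_cast at h2
    have h3 : ∑ e ∈ EE d N, ∑ e' ∈ (EE d N).filter (fun e' => e + e' ≤ R), vd d p e * vd d p e'
        = (2⁻¹ : ZMod p)^R * ∑ e ∈ EE d N, ∑ e' ∈ (EE d N).filter (fun e' => e + e' ≤ R),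
          (d e : ZMod p) * d e' * 2^(R - (e + e')) := by
      rw [Finset.mul_sum]
      refine Finset.sum_congr rfl fun e _ => ?_
      rw [Finset.mul_sum]
      refine Finset.sum_congr rfl fun e' he' => ?_
      have hle : e + e' ≤ R := (Finset.mem_filter.1 he').2
      unfold vd
      have h4 : (2⁻¹ : ZMod p)^R = (2⁻¹ : ZMod p)^(e+e') * (2⁻¹ : ZMod p)^(R-(e+e')) := by
        rw [← pow_add]; congr 1; omega
      have h5 : (2⁻¹ : ZMod p)^(R-(e+e')) * 2^(R-(e+e')) = 1 := by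
        rw [← mul_pow, inv_mul_cancel₀ h20, one_pow]
      calc (d e : ZMod p) * 2⁻¹^e * (d e' * 2⁻¹^e')
          = (d e : ZMod p) * d e' * (2⁻¹^(e+e')) * 1 := by rw [pow_add]; ring
        _ = (d e : ZMod p) * d e' * (2⁻¹^(e+e')) * (2⁻¹^(R-(e+e')) * 2^(R-(e+e'))) := by rw [h5]
        _ = _ := by rw [h4]; ring
    rw [h3, h2]
    have h6 : (2⁻¹ : ZMod p)^R * 2^R = 1 := by
      rw [← mul_pow, inv_mul_cancel₀ h20, one_pow]
    linear_combination (2 * (a:ZMod p)^2) * h6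

/-! ### grouping digits in blocks of length `l` -/

/-- digits grouped in the blocks `(j l, (j+1) l]`, placed at the right end of the block -/
def grp (l : ℕ) (d : ℕ → ℤ) (e : ℕ) : ℤ :=
  if e = 0 then d 0 else if l ∣ e then ∑ k ∈ Ioc (e - l) e, d k * 2^(e-k) else 0

lemma grp_zero (l : ℕ) (d : ℕ → ℤ) : grp l d 0 = d 0 := by simp [grp]

lemma grp_mul {l : ℕ} (hl : 1 ≤ l) (d : ℕ → ℤ) (q : ℕ) :
    grp l d ((q+1)*l) = ∑ k ∈ Ioc (q*l) ((q+1)*l), d k * 2^((q+1)*l-k) := by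
  have h0 : (q+1)*l ≠ 0 := by positivity
  have h1 : (q+1)*l - l = q*l := by rw [add_mul, one_mul]; omega
  rw [grp, if_neg h0, if_pos (Dvd.intro_left _ rfl), h1]

lemma grp_not {l e : ℕ} (he : e ≠ 0) (h : ¬ l ∣ e) (d : ℕ → ℤ) : grp l d e = 0 := by
  rw [grp, if_neg he, if_neg h]

lemma DD_succ (d : ℕ → ℤ) (R : ℕ) : DD d (R+1) = 2 * DD d R + d (R+1) := by
  unfold DD
  rw [Finset.sum_range_succ, Nat.sub_self, pow_zero, mul_one, Finset.mul_sum]
  congr 1
  refine Finset.sum_congr rfl fun e he => ?_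
  have : e ≤ R := by simpa [Nat.lt_succ_iff] using Finset.mem_range.1 he
  rw [Nat.succ_sub this, pow_succ]; ring

lemma DD_add (d : ℕ → ℤ) (R r : ℕ) :
    DD d (R+r) = 2^r * DD d R + ∑ k ∈ Ioc R (R+r), d k * 2^(R+r-k) := by
  induction r with
  | zero => simp
  | succ r ih =>
    rw [← Nat.add_assoc, DD_succ, ih, Finset.sum_Ioc_succ_top (by omega)]
    rw [Nat.sub_self, pow_zero, mul_one, mul_add, Finset.mul_sum]
    have h1 : ∑ k ∈ Ioc R (R+r), 2 * (d k * 2^(R+r-k)) = ∑ k ∈ Ioc R (R+r), d k * 2^(R+r+1-k) := by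
      refine Finset.sum_congr rfl fun e he => ?_
      have : e ≤ R + r := (Finset.mem_Ioc.1 he).2
      rw [Nat.succ_sub this, pow_succ]; ring
    rw [h1, pow_succ]; ring

lemma DD_grp {l : ℕ} (hl : 1 ≤ l) (d : ℕ → ℤ) (q : ℕ) : DD (grp l d) (q*l) = DD d (q*l) := by
  induction q with
  | zero => simp [DD, grp]
  | succ q ih =>
    have h1 : (q+1)*l = q*l + l := by ring
    have h2 := grp_mul hl d q
    rw [h1] at h2 ⊢
    rw [DD_add, DD_add, ih, ← h2]
    congr 1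
    rw [Finset.sum_eq_single (q*l+l)]
    · simp
    · intro k hk hne
      rw [Finset.mem_Ioc] at hk
      rw [grp_not (by omega), zero_mul]
      rintro ⟨c, hc⟩
      have e1 : q * l < c * l := by rw [mul_comm c l, ← hc]; exact hk.1
      have e2 : c * l < (q+1) * l := by rw [mul_comm c l, ← hc, h1]; omega
      have e3 := Nat.lt_of_mul_lt_mul_right e1
      have e4 := Nat.lt_of_mul_lt_mul_right e2
      omega
    · intro h
      exact absurd (Finset.mem_Ioc.2 ⟨by omega, le_rfl⟩) h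

lemma sum_pow_Ioc (R r : ℕ) : ∑ k ∈ Ioc R (R+r), (2:ℤ)^(R+r-k) ≤ 2^r := by
  have h : ∑ k ∈ Ioc R (R+r), (2:ℤ)^(R+r-k) = 2^r - 1 := by
    induction r with
    | zero => simp
    | succ r ih =>
      rw [← Nat.add_assoc, Finset.sum_Ioc_succ_top (by omega), Nat.sub_self, pow_zero]
      have h1 : ∑ k ∈ Ioc R (R+r), (2:ℤ)^(R+r+1-k) = 2 * ∑ k ∈ Ioc R (R+r), (2:ℤ)^(R+r-k) := by
        rw [Finset.mul_sum]
        refine Finset.sum_congr rfl fun e he => ?_
        have : e ≤ R + r := (Finset.mem_Ioc.1 he).2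
        rw [Nat.succ_sub this, pow_succ]; ring
      rw [h1, ih, pow_succ]; ring
  rw [h]; linarith

theorem dig_grp {a B : ℕ} {d : ℕ → ℤ} (h : Dig a B d) {l : ℕ} (hl : 1 ≤ l) (N : ℕ) :
    DigN a (B * 2^l) N (grp l d) := by
  have hB2 : B ≤ B * 2^l := Nat.le_mul_of_pos_right _ (by positivity)
  refine ⟨h.pos, by rw [grp_zero]; exact h.zero, ?_, ?_⟩
  · intro k _
    by_cases hk : k = 0
    · subst hk
      rw [grp_zero]
      exact (h.bd 0).trans (by exact_mod_cast hB2)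
    · by_cases hlk : l ∣ k
      · obtain ⟨c, rfl⟩ := hlk
        obtain ⟨q, rfl⟩ : ∃ q, c = q + 1 := by
          refine ⟨c - 1, ?_⟩
          have : c ≠ 0 := by rintro rfl; simp at hk
          omega
        rw [mul_comm l, grp_mul hl]
        have h1 : (q+1)*l = q*l + l := by ring
        rw [h1]
        calc |∑ k ∈ Ioc (q*l) (q*l+l), d k * 2^(q*l+l-k)|
            ≤ ∑ k ∈ Ioc (q*l) (q*l+l), |d k * 2^(q*l+l-k)| := Finset.abs_sum_le_sum_abs _ _
          _ ≤ ∑ k ∈ Ioc (q*l) (q*l+l), (B:ℤ) * 2^(q*l+l-k) := by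
              refine Finset.sum_le_sum fun k _ => ?_
              rw [abs_mul, abs_of_nonneg (by positivity : (0:ℤ) ≤ 2^(q*l+l-k))]
              exact mul_le_mul_of_nonneg_right (h.bd k) (by positivity)
          _ = (B:ℤ) * ∑ k ∈ Ioc (q*l) (q*l+l), (2:ℤ)^(q*l+l-k) := by rw [Finset.mul_sum]
          _ ≤ (B:ℤ) * 2^l := mul_le_mul_of_nonneg_left (sum_pow_Ioc _ _) (by positivity)
          _ = _ := by push_cast; ring
      · rw [grp_not hk hlk, abs_zero]; positivity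
  · intro M _
    set q := M / l with hq
    set r := M % l with hr
    have hM : M = q*l + r := by rw [hq, hr, mul_comm]; exact (Nat.div_add_mod M l).symm
    have hrl : r < l := Nat.mod_lt _ (by omega)
    have h1 : DD (grp l d) M = 2^r * DD d (q*l) := by
      rw [hM, DD_add, DD_grp hl]
      rw [add_eq_left]
      refine Finset.sum_eq_zero fun k hk => ?_
      rw [Finset.mem_Ioc] at hk
      rw [grp_not (by omega), zero_mul]
      rintro ⟨c, hc⟩
      have h2 : (q+1)*l = q*l + l := by ring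
      have e1 : q * l < c * l := by rw [mul_comm c l, ← hc]; exact hk.1
      have e2 : c * l < (q+1) * l := by rw [mul_comm c l, ← hc, h2]; omega
      have e3 := Nat.lt_of_mul_lt_mul_right e1
      have e4 := Nat.lt_of_mul_lt_mul_right e2
      omega
    have h2 := DD_sub_abs h (q*l)
    rw [h1]
    have h3 : ((2^r * DD d (q*l) : ℤ) : ℝ) - a * Real.sqrt 2 * 2^M
        = 2^r * ((DD d (q*l) : ℝ) - a * Real.sqrt 2 * 2^(q*l)) := by
      rw [hM, pow_add]; push_cast; ring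
    rw [h3, abs_mul, abs_of_pos (by positivity : (0:ℝ) < 2^r)]
    push_cast
    calc (2:ℝ)^r * |(DD d (q*l) : ℝ) - a * Real.sqrt 2 * 2^(q*l)| ≤ 2^l * B := by
          apply mul_le_mul _ h2 (abs_nonneg _) (by positivity)
          exact pow_le_pow_right₀ (by norm_num) hrl.le
      _ = B * 2^l := by ring

/-- number of nonzero grouped digits -/
lemma card_grp {d : ℕ → ℤ} {n L : ℕ} (S : Finset ℕ)
    (hS : ∀ k, 1 ≤ k → k ≤ n → d k ≠ 0 → ∃ s ∈ S, s ≤ k ∧ k ≤ s + L) :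
    #(EE (grp (L+1) d) n) ≤ 2 * #S + 1 := by
  classical
  have hsub : EE (grp (L+1) d) n ⊆
      insert 0 (S.image (fun s => (L+1) * ((s + L) / (L+1))) ∪
        S.image (fun s => (L+1) * ((s + L) / (L+1) + 1))) := by
    intro e he
    rw [EE, Finset.mem_filter, Finset.mem_range] at he
    rw [Finset.mem_insert, Finset.mem_union, Finset.mem_image, Finset.mem_image]
    by_cases h0 : e = 0
    · exact Or.inl h0
    right
    have hdiv : (L+1) ∣ e := by
      by_contra hcon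
      exact he.2 (grp_not h0 hcon d)
    have he2 := he.2
    rw [grp, if_neg h0, if_pos hdiv] at he2
    obtain ⟨k, hk, hk'⟩ := Finset.exists_ne_zero_of_sum_ne_zero he2
    rw [Finset.mem_Ioc] at hk
    have hdk : d k ≠ 0 := left_ne_zero_of_mul hk'
    obtain ⟨s, hs, hs1, hs2⟩ := hS k (by omega) (by omega) hdk
    obtain ⟨c, hc⟩ := hdiv
    -- `s ≤ e`, `e ≤ s + 2L + ...`
    have hLe : L + 1 ≤ e := by
      have : c ≠ 0 := by rintro rfl; simp at hc; exact h0 hc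
      rw [hc]; exact Nat.le_mul_of_pos_right _ (by omega)
    have b1 : s ≤ (L+1) * c := by omega
    have b2 : (L+1) * c ≤ s + L + L := by omega
    have hq1 : (s + L) / (L+1) ≤ c := by
      apply Nat.le_of_lt_succ
      rw [Nat.div_lt_iff_lt_mul (by omega), Nat.succ_mul, mul_comm c]
      omega
    have hq2 : c ≤ (s + L) / (L+1) + 1 := by
      have h1 : c - 1 ≤ (s + L) / (L+1) := by
        rw [Nat.le_div_iff_mul_le (by omega), Nat.sub_mul, mul_comm c, one_mul]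
        omega
      omega
    rcases (by omega : c = (s + L) / (L+1) ∨ c = (s + L) / (L+1) + 1) with h | h
    · left; exact ⟨s, hs, by rw [hc, h]⟩
    · right; exact ⟨s, hs, by rw [hc, h]⟩
  have h1 := (Finset.card_le_card hsub).trans (Finset.card_insert_le _ _)
  have h2 := Finset.card_union_le (S.image (fun s => (L+1) * ((s + L) / (L+1))))
    (S.image (fun s => (L+1) * ((s + L) / (L+1) + 1)))
  have h3 : #(S.image (fun s => (L+1) * ((s + L) / (L+1)))) ≤ #S := Finset.card_image_le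
  have h4 : #(S.image (fun s => (L+1) * ((s + L) / (L+1) + 1))) ≤ #S := Finset.card_image_le
  omega

end Pool.Agent.DigitG
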