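import Mathlib
import Pool.Agent.DigitG.Exact

open Finset Filter

namespace Pool.Agent.DigitG

open Pool.Agent.SqrtDC

/-! ## Reduction of the general statement to the normalised one, and linear patterns -/

/-- the normalised statement -/
def MainNorm : Prop := ∀ (a B : ℕ) (d : ℕ → ℤ), Dig a B d → ∀ A : ℕ, ∀ᶠ n : ℕ in atTop,
  (Real.log n)^A ≤ (((Finset.Icc 1 n).filter (fun k : ℕ => d k ≠ 0)).card : ℝ)

/-- the general statement -/
def MainGen : Prop := ∀ (a b : ℚ) (B : ℕ) (d : ℕ → ℤ), a ≠ 0 → (∀ k, |d k| ≤ B) →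
  HasSum (fun k => (d k : ℝ) / 2^k) (a * Real.sqrt 2 + b) → ∀ A : ℕ, ∀ᶠ n : ℕ in atTop,
  (Real.log n)^A ≤ (((Finset.Icc 1 n).filter (fun k : ℕ => d k ≠ 0)).card : ℝ)

lemma hasSum_congr' {f g : ℕ → ℝ} {x : ℝ} (h : ∀ k, f k = g k) (hg : HasSum g x) : HasSum f x := by
  have : f = g := funext h
  rw [this]; exact hg

lemma hasSum_two (x y : ℝ) : HasSum (fun k : ℕ => if k = 0 then x else if k = 1 then y else 0)
    (x + y) := by
  have h := hasSum_sum_of_ne_finset_zero (s := range 2)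
    (f := fun k : ℕ => if k = 0 then x else if k = 1 then y else 0) (L := SummationFilter.unconditional ℕ) (by
      intro k hk
      rw [mem_range] at hk
      rw [if_neg (by omega), if_neg (by omega)])
  simpa [Finset.sum_range_succ] using h

/-- normalisation: from `a√2 + b` (rational coefficients) to `a'√2`, `d' 0 ≠ 0` -/
theorem normalize (a b : ℚ) (B : ℕ) (d : ℕ → ℤ) (ha : a ≠ 0) (hd : ∀ k, |d k| ≤ B)
    (hs : HasSum (fun k => (d k : ℝ) / 2^k) (a * Real.sqrt 2 + b)) :
    ∃ (a' B' : ℕ) (d' : ℕ → ℤ), Dig a' B' d' ∧ ∀ k, 2 ≤ k → d' k ≠ 0 → d k ≠ 0 := by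
  set σ : ℤ := a.num.sign with hσ
  have hnum : a.num ≠ 0 := Rat.num_ne_zero.2 ha
  have hσσ : σ * a.num = |a.num| := by rw [hσ, Int.sign_mul_self_eq_abs]
  have hσ1 : |σ| = 1 := by rw [hσ, Int.abs_sign_of_ne_zero hnum]
  set M : ℕ := a.den * b.den with hM
  have hM1 : 1 ≤ M := Nat.mul_pos a.den_pos b.den_pos
  set a' : ℕ := a.num.natAbs * b.den with ha'
  have ha'1 : 1 ≤ a' := Nat.mul_pos (Int.natAbs_pos.2 hnum) b.den_pos
  set e0 : ℤ := if σ * M * d 0 - σ * (b.num * a.den) = 0 then 1 else 0 with he0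
  set d' : ℕ → ℤ := fun k => σ * M * d k + (if k = 0 then - σ * (b.num * a.den) + e0
    else if k = 1 then -2 * e0 else 0) with hd'
  have he01 : |e0| ≤ 1 := by
    rw [he0]; split_ifs <;> simp
  have hσM : ∀ k, |σ * M * d k| ≤ M * B := by
    intro k
    rw [abs_mul, abs_mul, hσ1, one_mul, abs_of_nonneg (by positivity : (0:ℤ) ≤ M)]
    exact mul_le_mul_of_nonneg_left (hd k) (by positivity)
  have hdig : Dig a' (M * B + (b.num * a.den).natAbs + 2) d' := by
    refine ⟨ha'1, ?_, ?_, ?_⟩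
    · simp only [hd', if_true]
      by_cases h : σ * M * d 0 - σ * (b.num * a.den) = 0
      · have : e0 = 1 := by rw [he0, if_pos h]
        rw [this]
        intro h2
        have h3 : (σ * M * d 0 - σ * (b.num * a.den)) + 1 = 0 := by linear_combination h2
        omega
      · have : e0 = 0 := by rw [he0, if_neg h]
        rw [this]
        intro h2
        apply h
        linear_combination h2
    · intro k
      simp only [hd']
      have h1 := hσM k
      have h2 : |(if k = 0 then - σ * (b.num * a.den) + e0 else if k = 1 then -2 * e0 else 0)| ≤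
          ((b.num * a.den).natAbs : ℤ) + 2 := by
        split_ifs
        · calc |- σ * (b.num * a.den) + e0| ≤ |- σ * (b.num * a.den)| + |e0| := abs_add_le _ _
            _ ≤ |b.num * a.den| + 1 := by
                rw [abs_mul, abs_neg, hσ1, one_mul]; linarith
            _ ≤ _ := by rw [Int.natCast_natAbs]; linarith
        · calc |-2 * e0| = 2 * |e0| := by rw [abs_mul]; norm_num
            _ ≤ _ := by have : (0:ℤ) ≤ ((b.num * a.den).natAbs : ℤ) := by positivity
                        linarith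
        · rw [abs_zero]; positivity
      push_cast
      calc |σ * M * d k + _| ≤ |σ * M * d k| + _ := abs_add_le _ _
        _ ≤ M * B + (((b.num * a.den).natAbs : ℤ) + 2) := add_le_add h1 h2
        _ = _ := by push_cast; ring
    · have h1 := hs.mul_left ((σ:ℝ) * M)
      have h2 := h1.add (hasSum_two (-(σ:ℝ) * (b.num * a.den) + e0) (-2 * e0 / 2))
      have hval : (σ:ℝ) * M * (a * Real.sqrt 2 + b) + ((-(σ:ℝ) * (b.num * a.den) + e0)
          + (-2 * e0 / 2)) = a' * Real.sqrt 2 := by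
        have ea : (a:ℝ) * a.den = a.num := by
          have := Rat.mul_den_eq_num a
          exact_mod_cast this
        have eb : (b:ℝ) * b.den = b.num := by
          have := Rat.mul_den_eq_num b
          exact_mod_cast this
        have ec : (a' : ℝ) = (σ:ℝ) * a.num * b.den := by
          rw [ha']
          push_cast
          have : ((σ * a.num : ℤ) : ℝ) = ((|a.num| : ℤ) : ℝ) := by rw [hσσ]
          push_cast at this
          rw [this]
          congr 1
          rw [Nat.cast_natAbs, Int.cast_abs]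
        rw [ec, hM]
        push_cast
        linear_combination ((σ:ℝ) * b.den * Real.sqrt 2) * ea + ((σ:ℝ) * a.den) * eb
      rw [hval] at h2
      refine hasSum_congr' (fun k => ?_) h2
      simp only [hd']
      push_cast
      by_cases hk0 : k = 0
      · subst hk0; simp
      · by_cases hk1 : k = 1
        · subst hk1; simp; ring
        · rw [if_neg hk0, if_neg hk1, if_neg hk0, if_neg hk1]; push_cast; ring
  refine ⟨a', _, d', hdig, ?_⟩
  intro k hk hne h0
  apply hne
  simp only [hd']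
  rw [h0, if_neg (by omega), if_neg (by omega)]; ring

theorem gen_of_norm (H : MainNorm) : MainGen := by
  intro a b B d ha hd hs A
  obtain ⟨a', B', d', hdig, hdd⟩ := normalize a b B d ha hd hs
  have hmain := H a' _ d' hdig (A+1)
  have hlog : ∀ᶠ n : ℕ in atTop, (2:ℝ) ≤ Real.log n :=
    (Real.tendsto_log_atTop.comp tendsto_natCast_atTop_atTop).eventually_ge_atTop 2
  filter_upwards [hmain, hlog] with n h1 h2
  have hsub : (Finset.Icc 1 n).filter (fun k : ℕ => d' k ≠ 0) ⊆
      insert 1 ((Finset.Icc 1 n).filter (fun k : ℕ => d k ≠ 0)) := by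
    intro k hk
    rw [mem_filter, mem_Icc] at hk
    rw [mem_insert, mem_filter, mem_Icc]
    by_cases hk1 : k = 1
    · exact Or.inl hk1
    · exact Or.inr ⟨hk.1, hdd k (by omega) hk.2⟩
  have hcard := (Finset.card_le_card hsub).trans (Finset.card_insert_le _ _)
  have hcard' : (((Finset.Icc 1 n).filter (fun k : ℕ => d' k ≠ 0)).card : ℝ) ≤
      (((Finset.Icc 1 n).filter (fun k : ℕ => d k ≠ 0)).card : ℝ) + 1 := by exact_mod_cast hcard
  have h3 : (1:ℝ) ≤ Real.log n ^ A := one_le_pow₀ (by linarith)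
  have h4 : Real.log n ^ A + 1 ≤ Real.log n ^ (A+1) := by
    rw [pow_succ]; nlinarith
  linarith

/-! ### linear patterns in the ordinary binary digits of `√2` -/

lemma digit_eq (k : ℕ) : ⌊Real.sqrt 2 * 2^(k+1)⌋ % 2 = F (k+1) - 2 * F k := by
  change F (k+1) % 2 = _
  rcases F_step k with h | h <;> omega

lemma hasSum_shift (j : ℕ) : HasSum (fun k : ℕ => (if k = 0 then (0:ℝ) else
    ((⌊Real.sqrt 2 * 2^(k+j)⌋ % 2 : ℤ) : ℝ) / 2^k)) (2^j * Real.sqrt 2 - F j) := by
  rw [hasSum_iff_tendsto_nat_of_nonneg]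
  · have hpart : ∀ n : ℕ, ∑ k ∈ range (n+1), (if k = 0 then (0:ℝ) else
        ((⌊Real.sqrt 2 * 2^(k+j)⌋ % 2 : ℤ) : ℝ) / 2^k) = F (n+j) / 2^n - F j := by
      intro n
      induction n with
      | zero => simp
      | succ n ih =>
        rw [Finset.sum_range_succ, ih, if_neg (by omega)]
        have h1 : n + 1 + j = (n + j) + 1 := by ring
        rw [h1, digit_eq]
        push_cast
        rw [pow_succ]
        field_simp
        ring
    rw [← tendsto_add_atTop_iff_nat 1]
    simp only [hpart]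
    apply Tendsto.sub_const
    -- `F (n+j) / 2^n → 2^j √2`
    have hb : ∀ n : ℕ, |(F (n+j) : ℝ) / 2^n - 2^j * Real.sqrt 2| ≤ (1/2)^n := by
      intro n
      have h1 : F (n+j) ≤ Real.sqrt 2 * 2^(n+j) := Int.floor_le _
      have h2 : Real.sqrt 2 * 2^(n+j) < F (n+j) + 1 := Int.lt_floor_add_one _
      have h3 : (F (n+j) : ℝ) / 2^n - 2^j * Real.sqrt 2
          = (F (n+j) - Real.sqrt 2 * 2^(n+j)) * (1/2)^n := by
        rw [pow_add, one_div, inv_pow]; field_simp
      rw [h3, abs_mul, abs_of_pos (by positivity : (0:ℝ) < (1/2)^n)]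
      have h4 : |(F (n+j) : ℝ) - Real.sqrt 2 * 2^(n+j)| ≤ 1 := by
        rw [abs_le]; constructor <;> linarith
      calc _ ≤ 1 * (1/2:ℝ)^n := mul_le_mul_of_nonneg_right h4 (by positivity)
        _ = _ := one_mul _
    rw [tendsto_iff_norm_sub_tendsto_zero]
    refine squeeze_zero (fun n => norm_nonneg _) (fun n => ?_)
      (tendsto_pow_atTop_nhds_zero_of_lt_one (by norm_num : (0:ℝ) ≤ 1/2) (by norm_num))
    rw [Real.norm_eq_abs]
    exact hb n
  · intro k
    by_cases hk : k = 0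
    · rw [if_pos hk]
    · rw [if_neg hk]
      have : (0:ℤ) ≤ ⌊Real.sqrt 2 * 2^(k+j)⌋ % 2 := Int.emod_nonneg _ (by norm_num)
      have : (0:ℝ) ≤ ((⌊Real.sqrt 2 * 2^(k+j)⌋ % 2 : ℤ) : ℝ) := by exact_mod_cast this
      positivity

lemma hasSum_one : HasSum (fun k : ℕ => (if k = 0 then (0:ℝ) else 1 / 2^k)) 1 := by
  have h1 : HasSum (fun k : ℕ => (1/2:ℝ)^k + (if k = 0 then (-1) else if k = 1 then (0:ℝ) else 0))
      (2 + (-1 + 0)) := hasSum_geometric_two.add (hasSum_two (-1) 0)
  have h2 : (2:ℝ) + (-1 + 0) = 1 := by norm_num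
  rw [h2] at h1
  refine hasSum_congr' (fun k => ?_) h1
  by_cases hk : k = 0
  · subst hk; simp
  · rw [if_neg hk, if_neg hk]
    simp

theorem linear_patterns (H : MainGen) (l : ℕ) (c : ℕ → ℤ) (c' : ℤ)
    (hc : ∑ j ∈ range (l+1), c j * 2^j ≠ 0) (A : ℕ) : ∀ᶠ n : ℕ in atTop,
    (Real.log n)^A ≤ (((Finset.Icc 1 n).filter (fun k : ℕ =>
      ∑ j ∈ range (l+1), c j * (⌊Real.sqrt 2 * 2^(k+j)⌋ % 2) ≠ c')).card : ℝ) := by
  set d : ℕ → ℤ := fun k => if k = 0 then 0 else
    ∑ j ∈ range (l+1), c j * (⌊Real.sqrt 2 * 2^(k+j)⌋ % 2) - c' with hd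
  have hbd : ∀ k, |d k| ≤ ((∑ j ∈ range (l+1), (c j).natAbs + c'.natAbs : ℕ) : ℤ) := by
    intro k
    simp only [hd]
    by_cases hk : k = 0
    · rw [if_pos hk, abs_zero]; positivity
    · rw [if_neg hk]
      push_cast
      calc |∑ j ∈ range (l+1), c j * (⌊Real.sqrt 2 * 2^(k+j)⌋ % 2) - c'|
          ≤ |∑ j ∈ range (l+1), c j * (⌊Real.sqrt 2 * 2^(k+j)⌋ % 2)| + |c'| := abs_sub _ _
        _ ≤ ∑ j ∈ range (l+1), |c j * (⌊Real.sqrt 2 * 2^(k+j)⌋ % 2)| + |c'| := by
            gcongr; exact Finset.abs_sum_le_sum_abs _ _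
        _ ≤ ∑ j ∈ range (l+1), |c j| + |c'| := by
            refine add_le_add (Finset.sum_le_sum fun j _ => ?_) le_rfl
            rw [abs_mul]
            have h1 : |⌊Real.sqrt 2 * 2^(k+j)⌋ % 2| ≤ 1 := by
              have := Int.emod_two_eq (⌊Real.sqrt 2 * 2^(k+j)⌋)
              rcases this with h | h <;> rw [h] <;> norm_num
            calc |c j| * |⌊Real.sqrt 2 * 2^(k+j)⌋ % 2| ≤ |c j| * 1 :=
                  mul_le_mul_of_nonneg_left h1 (abs_nonneg _)
              _ = |c j| := mul_one _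
  have hsum : HasSum (fun k => (d k : ℝ) / 2^k)
      (((∑ j ∈ range (l+1), c j * 2^j : ℤ) : ℚ) * Real.sqrt 2 +
        ((- ∑ j ∈ range (l+1), c j * F j - c' : ℤ) : ℚ)) := by
    have h1 : HasSum (fun k : ℕ => ∑ j ∈ range (l+1), (c j : ℝ) * (if k = 0 then (0:ℝ) else
        ((⌊Real.sqrt 2 * 2^(k+j)⌋ % 2 : ℤ) : ℝ) / 2^k))
        (∑ j ∈ range (l+1), (c j : ℝ) * (2^j * Real.sqrt 2 - F j)) :=
      hasSum_sum fun j _ => (hasSum_shift j).mul_left _
    have h2 := h1.sub (hasSum_one.mul_left (c' : ℝ))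
    have hval : ∑ j ∈ range (l+1), (c j : ℝ) * (2^j * Real.sqrt 2 - F j) - c' * 1
        = (((∑ j ∈ range (l+1), c j * 2^j : ℤ) : ℚ) * Real.sqrt 2 +
        ((- ∑ j ∈ range (l+1), c j * F j - c' : ℤ) : ℚ)) := by
      push_cast
      have e1 : ∑ j ∈ range (l+1), (c j : ℝ) * (2^j * Real.sqrt 2 - F j)
          = (∑ j ∈ range (l+1), (c j : ℝ) * 2^j) * Real.sqrt 2
            - ∑ j ∈ range (l+1), (c j : ℝ) * F j := by
        rw [Finset.sum_mul, ← Finset.sum_sub_distrib]
        refine Finset.sum_congr rfl fun j _ => ?_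
        ring
      rw [e1]; ring
    rw [hval] at h2
    refine hasSum_congr' (fun k => ?_) h2
    simp only [hd]
    by_cases hk : k = 0
    · simp [hk]
    · simp only [if_neg hk]
      push_cast
      rw [sub_div, Finset.sum_div]
      congr 1
      · refine Finset.sum_congr rfl fun j _ => ?_
        rw [mul_div_assoc]
      · rw [mul_one_div]
  have hmain := H _ _ _ d (by exact_mod_cast hc) hbd hsum A
  filter_upwards [hmain] with n hn
  refine hn.trans ?_
  have hsub : (Finset.Icc 1 n).filter (fun k : ℕ => d k ≠ 0) ⊆ (Finset.Icc 1 n).filter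
      (fun k : ℕ => ∑ j ∈ range (l+1), c j * (⌊Real.sqrt 2 * 2^(k+j)⌋ % 2) ≠ c') := by
    intro k hk
    rw [mem_filter, mem_Icc] at hk ⊢
    refine ⟨hk.1, ?_⟩
    intro h
    apply hk.2
    simp only [hd]
    rw [if_neg (by omega), h, sub_self]
  exact_mod_cast Finset.card_le_card hsub

end Pool.Agent.DigitG
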