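import Mathlib
import Pool.Agent.DigitG.General
import Pool.Agent.DigitG.MainStep

open Finset Filter

namespace Pool.Agent.DigitG

open Pool.Agent.SqrtDC

/-- the normalised covering statement -/
def CovNorm : Prop := ∀ (a B : ℕ) (d : ℕ → ℤ), Dig a B d → ∀ (A : ℕ) (δ : ℝ), 0 < δ →
  ∀ᶠ n : ℕ in atTop, ∀ L : ℕ, (L : ℝ) * Real.exp ((Real.log n)^δ) ≤ n →
  ∀ S : Finset ℕ, (#S : ℝ) ≤ (Real.log n)^A →
  ∃ k : ℕ, 1 ≤ k ∧ k ≤ n ∧ d k ≠ 0 ∧ ∀ s ∈ S, k < s ∨ s + L < k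

/-- the general covering statement -/
def CovGen : Prop := ∀ (a b : ℚ) (B : ℕ) (d : ℕ → ℤ), a ≠ 0 → (∀ k, |d k| ≤ B) →
  HasSum (fun k => (d k : ℝ) / 2^k) (a * Real.sqrt 2 + b) → ∀ (A : ℕ) (δ : ℝ), 0 < δ →
  ∀ᶠ n : ℕ in atTop, ∀ L : ℕ, (L : ℝ) * Real.exp ((Real.log n)^δ) ≤ n →
  ∀ S : Finset ℕ, (#S : ℝ) ≤ (Real.log n)^A →
  ∃ k : ℕ, 1 ≤ k ∧ k ≤ n ∧ d k ≠ 0 ∧ ∀ s ∈ S, k < s ∨ s + L < k

/-- squares of logarithms are small -/
lemma log_sq_small (C : ℕ) : ∃ y₁ : ℕ, ∀ y, y₁ ≤ y → C * (Nat.log 2 y + 1)^2 ≤ y := by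
  -- `(k+1)^2 * C ≤ 2^k` for large `k`
  have h1 : ∀ᶠ k : ℕ in Filter.atTop, (C * (k+1)^2 : ℕ) ≤ 2^k := by
    have h2 : Filter.Tendsto (fun k : ℕ => ((k:ℝ)^2 / 2^k)) Filter.atTop (nhds 0) :=
      tendsto_pow_const_div_const_pow_of_one_lt 2 (by norm_num)
    have h3 : ∀ᶠ k : ℕ in Filter.atTop, ((k:ℝ)^2 / 2^k) < 1 / (4 * (C+1)) :=
      h2.eventually_lt_const (by positivity)
    filter_upwards [h3, Filter.eventually_ge_atTop 1] with k hk hk1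
    have h4 : (0:ℝ) < 2^k := by positivity
    rw [div_lt_iff₀ h4] at hk
    have h5 : (k:ℝ)^2 * (4 * (C+1)) < 2^k := by
      have : (0:ℝ) < 4 * (C+1) := by positivity
      calc (k:ℝ)^2 * (4 * (C+1)) < (1/(4*(C+1)) * 2^k) * (4*(C+1)) := by
            exact mul_lt_mul_of_pos_right hk this
        _ = 2^k := by field_simp
    have h6 : k^2 * (4 * (C+1)) < 2^k := by exact_mod_cast h5
    have h7 : (k+1)^2 ≤ 4 * k^2 := by nlinarith
    calc C * (k+1)^2 ≤ (C+1) * (4 * k^2) := Nat.mul_le_mul (by omega) h7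
      _ = k^2 * (4 * (C+1)) := by ring
      _ ≤ 2^k := h6.le
  obtain ⟨k₀, hk₀⟩ := Filter.eventually_atTop.mp h1
  refine ⟨2^k₀, fun y hy => ?_⟩
  have hy0 : y ≠ 0 := by
    have := Nat.one_le_two_pow (n := k₀)
    omega
  have h2 : k₀ ≤ Nat.log 2 y := by
    apply Nat.le_log_of_pow_le (by norm_num) hy
  exact (hk₀ _ h2).trans (Nat.pow_log_le_self 2 hy0)

/-- the parameter `y ≈ (log n)^(δ/10)` -/
lemma choose_y (δ : ℝ) (hδ : 0 < δ) : ∃ K : ℕ, ∀ Y : ℕ, ∀ᶠ n : ℕ in atTop, ∃ y : ℕ, Y ≤ y ∧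
    Real.log n ≤ (y:ℝ)^K ∧ Real.exp ((y:ℝ)^10) ≤ n ∧
    Real.exp ((y:ℝ)^10) ≤ Real.exp ((Real.log n)^δ) := by
  set δ' : ℝ := min δ 1 with hδ'
  have hδ'0 : 0 < δ' := lt_min hδ one_pos
  have hδ'1 : δ' ≤ 1 := min_le_right _ _
  have hδ'δ : δ' ≤ δ := min_le_left _ _
  obtain ⟨K1, hK1⟩ : ∃ K1 : ℕ, 10 / δ' ≤ K1 := exists_nat_ge _
  refine ⟨2 * K1, fun Y => ?_⟩
  have hlogt : Tendsto (fun n : ℕ => Real.log (n:ℝ)) atTop atTop :=
    Real.tendsto_log_atTop.comp tendsto_natCast_atTop_atTop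
  have hx : Tendsto (fun n : ℕ => (Real.log (n:ℝ)) ^ (δ'/10)) atTop atTop :=
    (tendsto_rpow_atTop (by positivity)).comp hlogt
  filter_upwards [hx.eventually_ge_atTop ((Y + 2 : ℕ) : ℝ), hlogt.eventually_ge_atTop 1,
    eventually_ge_atTop 1] with n h1 h2 h3
  set x : ℝ := (Real.log (n:ℝ)) ^ (δ'/10) with hxdef
  have hx0 : 0 ≤ x := by positivity
  have hn0 : (0:ℝ) < n := by exact_mod_cast h3
  have hy1 : (Nat.floor x : ℝ) ≤ x := Nat.floor_le hx0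
  have hy2 : x < Nat.floor x + 1 := Nat.lt_floor_add_one x
  have hyY : Y + 2 ≤ Nat.floor x := Nat.le_floor h1
  refine ⟨Nat.floor x, by omega, ?_, ?_, ?_⟩
  · set y := Nat.floor x with hy
    have hyr : (2:ℝ) ≤ y := by exact_mod_cast (by omega : 2 ≤ y)
    have e1 : Real.log n = x ^ (10/δ') := by
      rw [hxdef, ← Real.rpow_mul (by linarith)]
      have : δ'/10 * (10/δ') = 1 := by field_simp
      rw [this, Real.rpow_one]
    have e2 : x ^ (10/δ') ≤ ((y:ℝ)+1) ^ (10/δ') :=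
      Real.rpow_le_rpow hx0 hy2.le (by positivity)
    have e3 : ((y:ℝ)+1) ^ (10/δ') ≤ ((y:ℝ)+1) ^ (K1:ℝ) :=
      Real.rpow_le_rpow_of_exponent_le (by linarith) hK1
    rw [Real.rpow_natCast] at e3
    have e4 : ((y:ℝ)+1)^K1 ≤ ((y:ℝ)^2)^K1 := by
      apply pow_le_pow_left₀ (by positivity)
      nlinarith
    rw [← pow_mul] at e4
    linarith
  · have e1 : ((Nat.floor x : ℕ) : ℝ)^10 ≤ Real.log n := by
      calc ((Nat.floor x : ℕ) : ℝ)^10 ≤ x^10 := pow_le_pow_left₀ (by positivity) hy1 10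
        _ = (Real.log n)^δ' := by
            rw [hxdef, ← Real.rpow_natCast, ← Real.rpow_mul (by linarith)]
            congr 1; push_cast; ring
        _ ≤ (Real.log n)^(1:ℝ) := Real.rpow_le_rpow_of_exponent_le h2 hδ'1
        _ = Real.log n := Real.rpow_one _
    calc Real.exp (((Nat.floor x : ℕ) : ℝ)^10) ≤ Real.exp (Real.log n) := Real.exp_le_exp.2 e1
      _ = n := Real.exp_log hn0
  · apply Real.exp_le_exp.2
    calc ((Nat.floor x : ℕ) : ℝ)^10 ≤ x^10 := pow_le_pow_left₀ (by positivity) hy1 10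
      _ = (Real.log n)^δ' := by
          rw [hxdef, ← Real.rpow_natCast, ← Real.rpow_mul (by linarith)]
          congr 1; push_cast; ring
      _ ≤ (Real.log n)^δ := Real.rpow_le_rpow_of_exponent_le h2 hδ'δ

theorem cov_norm : CovNorm := by
  classical
  intro a Bd d hd A δ hδ
  obtain ⟨K1, hK1⟩ := choose_y δ hδ
  obtain ⟨A1, hA1⟩ : ∃ A1, A1 = K1*A + 2 := ⟨_, rfl⟩
  -- the prime
  obtain ⟨p, hp1, hp2, hp3⟩ := Nat.forall_exists_prime_gt_and_eq_mod (q := 8) (a := (3 : ZMod 8))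
    (by decide) ((8*A1).choose (4*A1) + a)
  have hp8 : p % 8 = 3 ∨ p % 8 = 5 := by
    left
    have h1 : ((p : ℕ) : ZMod 8) = ((3 : ℕ) : ZMod 8) := by rw [hp3]; rfl
    rw [ZMod.natCast_eq_natCast_iff] at h1
    exact h1
  have : Fact p.Prime := ⟨hp2⟩
  obtain ⟨m, y₀, hmain⟩ := main_step A1 p (by omega)
  obtain ⟨K, hK⟩ : ∃ K, K = (A1+1)*(m+10) + 1 := ⟨_, rfl⟩
  obtain ⟨K2, hK2⟩ : ∃ K2, K2 = K1 + 3 + A1*p := ⟨_, rfl⟩
  obtain ⟨C, hC⟩ : ∃ C, C = 28*(A1+1)^2 + (K2 + p*K) := ⟨_, rfl⟩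
  obtain ⟨y₁, hy₁⟩ := log_sq_small C
  obtain ⟨H, hH⟩ : ∃ H, H = Bd^2 + 3*a*Bd + 1 := ⟨_, rfl⟩
  obtain ⟨Y, hY⟩ : ∃ Y, Y = y₀ + y₁ + 512 + 100*(m+2)^2 + H := ⟨_, rfl⟩
  filter_upwards [hK1 Y, eventually_ge_atTop 1] with n hn hn1
  obtain ⟨y, hyY, hylog, hyn, hyL⟩ := hn
  intro L hL S hS
  by_contra hcon
  push Not at hcon
  have hcov : ∀ k, 1 ≤ k → k ≤ n → d k ≠ 0 → ∃ s ∈ S, s ≤ k ∧ k ≤ s + L := hcon
  have hcard := card_grp S hcov
  have hy512 : 512 ≤ y := by omega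
  have hym : 100*(m+2)^2 ≤ y := by omega
  have hyp : 0 < y := by omega
  have hn0 : n ≠ 0 := by omega
  -- `n` against `y`
  have h2e : (2:ℝ) ≤ Real.exp 1 := by
    have := Real.exp_one_gt_d9
    linarith
  have hpow2 : (2:ℝ) * 2^(y^9) ≤ Real.exp ((y:ℝ)^10) := by
    have h1 : y^9 + 1 ≤ y^10 := by
      have : y^10 = y * y^9 := by ring
      have h3 : 1 ≤ y^9 := Nat.one_le_pow _ _ hyp
      have h4 : 2 * y^9 ≤ y * y^9 := Nat.mul_le_mul_right _ (by omega)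
      omega
    calc (2:ℝ) * 2^(y^9) = 2^(y^9+1) := by rw [pow_succ]; ring
      _ ≤ 2^(y^10) := pow_le_pow_right₀ (by norm_num) h1
      _ ≤ (Real.exp 1)^(y^10) := pow_le_pow_left₀ (by norm_num) h2e _
      _ = Real.exp ((y:ℝ)^10) := by rw [← Real.exp_nat_mul]; push_cast; ring_nf
  have hLn : (L+1) * 2^(y^9) ≤ n := by
    have : (((L+1) * 2^(y^9) : ℕ) : ℝ) ≤ (n:ℝ) := by
      push_cast
      rcases Nat.eq_zero_or_pos L with h0 | h0
      · subst h0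
        have : (0:ℝ) < 2^(y^9) := by positivity
        push_cast
        linarith
      · have hL1 : (1:ℝ) ≤ L := by exact_mod_cast h0
        calc ((L:ℝ)+1) * 2^(y^9) ≤ (2*L) * 2^(y^9) := by gcongr; linarith
          _ = L * (2 * 2^(y^9)) := by ring
          _ ≤ L * Real.exp ((Real.log n)^δ) := by gcongr; exact hpow2.trans hyL
          _ ≤ n := hL
    exact_mod_cast this
  -- `log2 n`
  obtain ⟨Ln, hLn'⟩ : ∃ Ln, Ln = Nat.log 2 n := ⟨_, rfl⟩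
  have hn2 : n < 2^(Ln+1) := by rw [hLn']; exact Nat.lt_pow_succ_log_self (by norm_num) n
  have hLn1 : Ln ≤ y^(K1+1) := by
    have h1 : (Ln : ℝ) * Real.log 2 ≤ Real.log n := by
      rw [← Real.log_pow]
      apply Real.log_le_log (by positivity)
      have := Nat.pow_log_le_self 2 hn0
      rw [← hLn'] at this
      exact_mod_cast this
    have h2 : (1/2:ℝ) ≤ Real.log 2 := by
      have := Real.log_two_gt_d9
      linarith
    have h3 : (Ln:ℝ) ≤ 2 * (y:ℝ)^K1 := by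
      have : (0:ℝ) ≤ Ln := by positivity
      nlinarith
    have h4 : (2:ℝ) * (y:ℝ)^K1 ≤ (y:ℝ)^(K1+1) := by
      rw [pow_succ, mul_comm]
      have : (2:ℝ) ≤ y := by exact_mod_cast (by omega : 2 ≤ y)
      gcongr
    have h5 : (Ln:ℝ) ≤ ((y^(K1+1) : ℕ) : ℝ) := by push_cast; linarith
    exact_mod_cast h5
  -- `t`
  obtain ⟨t, ht⟩ : ∃ t, t = y^A1 := ⟨_, rfl⟩
  have hSy : #S ≤ y^(K1*A) := by
    have h1 : (#S : ℝ) ≤ ((y^(K1*A) : ℕ) : ℝ) := by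
      refine hS.trans ?_
      push_cast
      rw [pow_mul]
      apply pow_le_pow_left₀ _ hylog
      exact Real.log_natCast_nonneg _
    exact_mod_cast h1
  have hEt : #(EE (grp (L+1) d) n) ≤ t := by
    have h1 : y^A1 = y*(y*y^(K1*A)) := by rw [hA1, pow_add]; ring
    have h2 : 1 ≤ y^(K1*A) := Nat.one_le_pow _ _ hyp
    have h3 : 512 * y^(K1*A) ≤ y * y^(K1*A) := Nat.mul_le_mul_right _ hy512
    have h4 : 1 * (y * y^(K1*A)) ≤ y * (y * y^(K1*A)) := Nat.mul_le_mul_right _ hyp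
    omega
  have ht1 : 1 ≤ t := by rw [ht]; exact Nat.one_le_pow _ _ hyp
  have htya : t < y^(A1+1) := by
    rw [ht]
    exact Nat.pow_lt_pow_right (by omega) (by omega)
  -- `λ`
  obtain ⟨w, hw⟩ : ∃ w, w = Nat.log 2 y + 1 := ⟨_, rfl⟩
  have hw1 : 1 ≤ w := by omega
  have hyw : y ≤ 2^w := by
    rw [hw]
    exact (Nat.lt_pow_succ_log_self (by norm_num) y).le
  have hCw : C * w^2 ≤ y := by
    rw [hw]
    exact hy₁ y (by omega)
  have hww : w ≤ w^2 := Nat.le_self_pow (by norm_num) w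
  obtain ⟨l, hl⟩ : ∃ l, l = A1*w + 1 := ⟨_, rfl⟩
  have htl : t < 2^l := by
    have h1 : y^A1 ≤ 2^(A1*w) := by
      calc y^A1 ≤ (2^w)^A1 := Nat.pow_le_pow_left hyw _
        _ = 2^(A1*w) := by rw [← pow_mul]; congr 1; ring
    have h2 : 2^(A1*w) < 2^l := Nat.pow_lt_pow_right (by norm_num) (by omega)
    omega
  have hl28 : 28*l^2 ≤ y := by
    have h1 : l ≤ (A1+1)*w := by
      rw [hl, add_mul, one_mul]
      omega
    have h2 : l^2 ≤ ((A1+1)*w)^2 := Nat.pow_le_pow_left h1 2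
    have h3 : 28*(A1+1)^2 * w^2 ≤ C * w^2 := Nat.mul_le_mul_right _ (by omega)
    have h4 : 28 * ((A1+1)*w)^2 = 28*(A1+1)^2 * w^2 := by ring
    omega
  -- `Λ`
  obtain ⟨Λ, hΛ⟩ : ∃ Λ, Λ = Ln + 2 + H + 2*(L+1) := ⟨_, rfl⟩
  have hΛ2 : (n + 2) * ((Bd * 2^(L+1))^2 + 3*a*(Bd * 2^(L+1)) + 1) ≤ 2^Λ := by
    have h1 : 1 ≤ 2^Ln := Nat.one_le_two_pow
    have h2 : 2^Λ = (4 * 2^Ln) * (2^H * (2^(L+1))^2) := by
      rw [hΛ, pow_add, pow_add, pow_add, ← pow_mul, mul_comm (L+1) 2]; ring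
    have h3 : 2^(Ln+1) = 2 * 2^Ln := by rw [pow_succ]; ring
    have h4 : 1 ≤ 2^(L+1) := Nat.one_le_two_pow
    have h5 : (Bd * 2^(L+1))^2 + 3*a*(Bd * 2^(L+1)) + 1 ≤ 2^H * (2^(L+1))^2 := by
      have h6 : H ≤ 2^H := (Nat.lt_two_pow_self).le
      have h7 : (Bd * 2^(L+1))^2 + 3*a*(Bd * 2^(L+1)) + 1 ≤ H * (2^(L+1))^2 := by
        rw [hH]
        generalize 2^(L+1) = Q at h4
        have h8 : Q ≤ Q^2 := Nat.le_self_pow (by norm_num) Q
        have h9 : 3*a*Bd*Q ≤ 3*a*Bd*Q^2 := Nat.mul_le_mul_left _ h8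
        have h10 : 1 ≤ Q^2 := Nat.one_le_pow _ _ h4
        nlinarith
      exact h7.trans (Nat.mul_le_mul_right _ h6)
    rw [h2]
    exact Nat.mul_le_mul (by omega) h5
  have hΛy : Λ ≤ (L+1) * y^(K1+2) := by
    have h1 : y^(K1+2) = y * y^(K1+1) := by rw [pow_succ]; ring
    have h2 : y ≤ y^(K1+1) := Nat.le_self_pow (by omega) y
    have h3 : 512 * y^(K1+1) ≤ y * y^(K1+1) := Nat.mul_le_mul_right _ hy512
    have h4 : Ln + 2 + H + 2 ≤ y^(K1+2) := by omega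
    calc Λ = (Ln + 2 + H + 2) + 2 * L := by omega
      _ ≤ y^(K1+2) + L * y^(K1+2) := by
          have : 2 * L ≤ L * y^(K1+2) := by
            rw [mul_comm]; exact Nat.mul_le_mul_left _ (by omega)
          omega
      _ = (L+1) * y^(K1+2) := by ring
  -- `ρ`
  obtain ⟨ρ, hρ⟩ : ∃ ρ, ρ = 12*(Λ*t^p+1) := ⟨_, rfl⟩
  have hρy : ρ ≤ (L+1) * y^K2 := by
    have h1 : t^p = y^(A1*p) := by rw [ht, ← pow_mul]
    have h2 : Λ * t^p ≤ (L+1) * (y^(K1+2) * y^(A1*p)) := by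
      rw [h1, ← mul_assoc]
      exact Nat.mul_le_mul_right _ hΛy
    have h3 : 1 ≤ (L+1) * (y^(K1+2) * y^(A1*p)) := Nat.one_le_iff_ne_zero.mpr (by positivity)
    have h4 : (L+1) * y^K2 = y * ((L+1) * (y^(K1+2) * y^(A1*p))) := by
      rw [hK2, ← pow_add]
      have : K1 + 3 + A1*p = (K1 + 2 + A1*p) + 1 := by ring
      rw [this, pow_succ]; ring
    have h5 : 512 * ((L+1) * (y^(K1+2) * y^(A1*p))) ≤ y * ((L+1) * (y^(K1+2) * y^(A1*p))) :=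
      Nat.mul_le_mul_right _ hy512
    rw [hρ, h4]
    omega
  -- `b`
  obtain ⟨b, hb⟩ : ∃ b, b = K*w := ⟨_, rfl⟩
  have hp2' : 2 ≤ p := hp2.two_le
  have hB1 : 100 * (m+2)^2 * (t+1)^(m+10) ≤ p^b := by
    have h1 : t + 1 ≤ y^(A1+1) := by
      have h2 : y^(A1+1) = y * y^A1 := by rw [pow_succ]; ring
      have h3 : 512 * y^A1 ≤ y * y^A1 := Nat.mul_le_mul_right _ hy512
      omega
    have h2 : (t+1)^(m+10) ≤ y^((A1+1)*(m+10)) := by
      rw [pow_mul]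
      exact Nat.pow_le_pow_left h1 _
    calc 100 * (m+2)^2 * (t+1)^(m+10)
        ≤ y * y^((A1+1)*(m+10)) := Nat.mul_le_mul hym h2
      _ = y^K := by rw [hK, pow_succ]; ring
      _ ≤ (2^w)^K := Nat.pow_le_pow_left hyw K
      _ = 2^b := by rw [← pow_mul, hb]; congr 1; ring
      _ ≤ p^b := Nat.pow_le_pow_left hp2' b
  have hBN : ρ * (p^b)^(y^8) ≤ n := by
    have h1 : y^K2 ≤ 2^(K2*w) := by
      calc y^K2 ≤ (2^w)^K2 := Nat.pow_le_pow_left hyw _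
        _ = 2^(K2*w) := by rw [← pow_mul]; congr 1; ring
    have h2 : p^b ≤ 2^(p*b) := by
      calc p^b ≤ (2^p)^b := Nat.pow_le_pow_left (Nat.lt_two_pow_self).le b
        _ = 2^(p*b) := by rw [← pow_mul]
    have h3 : (p^b)^(y^8) ≤ 2^(p*b*y^8) := by
      calc (p^b)^(y^8) ≤ (2^(p*b))^(y^8) := Nat.pow_le_pow_left h2 _
        _ = 2^(p*b*y^8) := by rw [← pow_mul]
    have h4 : K2*w + p*b*y^8 ≤ y^9 := by
      have h5 : 1 ≤ y^8 := Nat.one_le_pow _ _ hyp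
      have h6 : K2*w ≤ K2*w*y^8 := Nat.le_mul_of_pos_right _ h5
      have h7 : p*b*y^8 = p*K*w*y^8 := by rw [hb]; ring
      have h8 : K2*w*y^8 + p*K*w*y^8 = (K2+p*K)*w*y^8 := by ring
      have h9 : (K2+p*K)*w ≤ y := by
        calc (K2+p*K)*w ≤ C * w^2 := Nat.mul_le_mul (by omega) hww
          _ ≤ y := hCw
      have h10 : (K2+p*K)*w*y^8 ≤ y * y^8 := Nat.mul_le_mul_right _ h9
      have h11 : y * y^8 = y^9 := by ring
      omega
    calc ρ * (p^b)^(y^8) ≤ ((L+1) * 2^(K2*w)) * 2^(p*b*y^8) :=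
          Nat.mul_le_mul (hρy.trans (Nat.mul_le_mul_left _ h1)) h3
      _ = (L+1) * 2^(K2*w + p*b*y^8) := by rw [pow_add]; ring
      _ ≤ (L+1) * 2^(y^9) := Nat.mul_le_mul_left _ (Nat.pow_le_pow_right (by norm_num) h4)
      _ ≤ n := hLn
  exact hmain y (by omega) l t n Λ ρ b _ _ _
    (ex_of_dig (dig_grp hd (by omega) n) p hp8 (by omega) Λ hΛ2) hEt htya htl hl28 (by omega)
    hB1 hBN

theorem cov_gen : CovGen := by
  intro a b B d ha hd hs A δ hδ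
  obtain ⟨a', B', d', hdig, hdd⟩ := normalize a b B d ha hd hs
  have hmain := cov_norm a' B' d' hdig (A+1) δ hδ
  have hlog : ∀ᶠ n : ℕ in atTop, (2:ℝ) ≤ Real.log n :=
    (Real.tendsto_log_atTop.comp tendsto_natCast_atTop_atTop).eventually_ge_atTop 2
  filter_upwards [hmain, hlog] with n h1 h2
  intro L hL S hS
  have h3 : (1:ℝ) ≤ Real.log n ^ A := one_le_pow₀ (by linarith)
  have h4 : Real.log n ^ A + 1 ≤ Real.log n ^ (A+1) := by
    rw [pow_succ]; nlinarith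
  have hcard : (#(insert 1 S) : ℝ) ≤ Real.log n ^ (A+1) := by
    have : (#(insert 1 S) : ℝ) ≤ (#S : ℝ) + 1 := by exact_mod_cast Finset.card_insert_le _ _
    linarith
  obtain ⟨k, hk1, hkn, hk0, hkS⟩ := h1 L hL (insert 1 S) hcard
  have h5 := hkS 1 (Finset.mem_insert_self _ _)
  exact ⟨k, hk1, hkn, hdd k (by omega) hk0, fun s hs => hkS s (Finset.mem_insert_of_mem hs)⟩

end Pool.Agent.DigitG
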