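import Mathlib
import Pool.Agent.DigitG.Cover

open Finset Filter

namespace Pool.Agent.DigitG

open Pool.Agent.SqrtDC

/-- the shifted expansion -/
lemma hasSum_shift' {e : ℕ → ℤ} {ξ : ℝ} (hs : HasSum (fun k => (e k : ℝ) / 2^k) ξ) (j : ℕ) :
    HasSum (fun k : ℕ => (if k = 0 then (0:ℝ) else (e (k+j) : ℝ) / 2^k))
      (2^j * ξ - 2^j * ∑ i ∈ range (j+1), (e i : ℝ) / 2^i) := by
  have h1 : HasSum (fun k : ℕ => (e (k+j) : ℝ) / 2^(k+j)) (ξ - ∑ i ∈ range j, (e i : ℝ) / 2^i) := by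
    rw [hasSum_nat_add_iff (f := fun k => (e k : ℝ) / 2^k) j]
    simpa using hs
  have h2 := (h1.mul_left ((2:ℝ)^j)).add (hasSum_two (-(e j : ℝ)) 0)
  have hval : (2:ℝ)^j * (ξ - ∑ i ∈ range j, (e i : ℝ) / 2^i) + (-(e j : ℝ) + 0)
      = 2^j * ξ - 2^j * ∑ i ∈ range (j+1), (e i : ℝ) / 2^i := by
    rw [Finset.sum_range_succ]
    field_simp
    ring
  rw [hval] at h2
  refine hasSum_congr' (fun k => ?_) h2
  by_cases hk : k = 0
  · subst hk
    simp
    field_simp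
    ring
  · rw [if_neg hk, if_neg hk]
    have : (if k = 1 then (0:ℝ) else 0) = 0 := by split_ifs <;> rfl
    rw [this, pow_add]
    field_simp
    ring

/-- The covering theorem for linear patterns. -/
theorem pattern_cov (a b : ℚ) (ha : a ≠ 0) (B : ℕ) (e : ℕ → ℤ) (he : ∀ k, |e k| ≤ B)
    (hs : HasSum (fun k => (e k : ℝ) / 2^k) (a * Real.sqrt 2 + b))
    (l : ℕ) (c : ℕ → ℤ) (c' : ℤ) (hc : ∑ j ∈ range (l+1), c j * 2^j ≠ 0)
    (A : ℕ) (δ : ℝ) (hδ : 0 < δ) :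
    ∀ᶠ n : ℕ in atTop, ∀ L : ℕ, (L : ℝ) * Real.exp ((Real.log n)^δ) ≤ n →
      ∀ S : Finset ℕ, (#S : ℝ) ≤ (Real.log n)^A →
      ∃ k : ℕ, 1 ≤ k ∧ k ≤ n ∧ ∑ j ∈ range (l+1), c j * e (k+j) ≠ c' ∧
        ∀ s ∈ S, k < s ∨ s + L < k := by
  set d : ℕ → ℤ := fun k => if k = 0 then 0 else
    ∑ j ∈ range (l+1), c j * e (k+j) - c' with hd
  have hbd : ∀ k, |d k| ≤ (((∑ j ∈ range (l+1), (c j).natAbs) * B + c'.natAbs : ℕ) : ℤ) := by
    intro k
    simp only [hd]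
    by_cases hk : k = 0
    · rw [if_pos hk, abs_zero]; positivity
    · rw [if_neg hk]
      push_cast
      rw [Finset.sum_mul]
      calc |∑ j ∈ range (l+1), c j * e (k+j) - c'|
          ≤ |∑ j ∈ range (l+1), c j * e (k+j)| + |c'| := abs_sub _ _
        _ ≤ ∑ j ∈ range (l+1), |c j * e (k+j)| + |c'| := by
            gcongr; exact Finset.abs_sum_le_sum_abs _ _
        _ ≤ ∑ j ∈ range (l+1), |c j| * B + |c'| := by
            refine add_le_add (Finset.sum_le_sum fun j _ => ?_) le_rfl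
            rw [abs_mul]
            exact mul_le_mul_of_nonneg_left (he _) (abs_nonneg _)
  set r : ℚ := (∑ j ∈ range (l+1), (c j : ℚ) * 2^j) * b
    - ∑ j ∈ range (l+1), (c j : ℚ) * (2^j * ∑ i ∈ range (j+1), (e i : ℚ) / 2^i) - c' with hr
  have hsum : HasSum (fun k => (d k : ℝ) / 2^k)
      (((∑ j ∈ range (l+1), (c j : ℚ) * 2^j) * a : ℚ) * Real.sqrt 2 + (r : ℚ)) := by
    have h1 : HasSum (fun k : ℕ => ∑ j ∈ range (l+1), (c j : ℝ) * (if k = 0 then (0:ℝ) else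
        (e (k+j) : ℝ) / 2^k))
        (∑ j ∈ range (l+1), (c j : ℝ) * (2^j * (a * Real.sqrt 2 + b)
          - 2^j * ∑ i ∈ range (j+1), (e i : ℝ) / 2^i)) :=
      hasSum_sum fun j _ => (hasSum_shift' hs j).mul_left _
    have h2 := h1.sub (hasSum_one.mul_left (c' : ℝ))
    have hval : ∑ j ∈ range (l+1), (c j : ℝ) * (2^j * (a * Real.sqrt 2 + b)
          - 2^j * ∑ i ∈ range (j+1), (e i : ℝ) / 2^i) - c' * 1
        = (((∑ j ∈ range (l+1), (c j : ℚ) * 2^j) * a : ℚ) * Real.sqrt 2 + (r : ℚ)) := by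
      rw [hr]
      push_cast
      have e1 : ∑ j ∈ range (l+1), (c j : ℝ) * (2^j * (a * Real.sqrt 2 + b)
            - 2^j * ∑ i ∈ range (j+1), (e i : ℝ) / 2^i)
          = (∑ j ∈ range (l+1), (c j : ℝ) * 2^j) * (a * Real.sqrt 2 + b)
            - ∑ j ∈ range (l+1), (c j : ℝ) * (2^j * ∑ i ∈ range (j+1), (e i : ℝ) / 2^i) := by
        rw [Finset.sum_mul, ← Finset.sum_sub_distrib]
        refine Finset.sum_congr rfl fun j _ => ?_
        ring
      rw [e1]; ring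
    rw [hval] at h2
    refine hasSum_congr' (fun k => ?_) h2
    simp only [hd]
    by_cases hk : k = 0
    · simp [hk]
    · simp only [if_neg hk]
      push_cast
      rw [sub_div, Finset.sum_div]
      congr 1
      · refine Finset.sum_congr rfl fun j _ => ?_
        rw [mul_div_assoc]
      · rw [mul_one_div]
  have hc0 : (∑ j ∈ range (l+1), (c j : ℚ) * 2^j) * a ≠ 0 := by
    apply mul_ne_zero _ ha
    have : ((∑ j ∈ range (l+1), c j * 2^j : ℤ) : ℚ) ≠ 0 := by exact_mod_cast hc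
    push_cast at this
    exact this
  have hmain := cov_gen _ r _ d hc0 hbd hsum A δ hδ
  filter_upwards [hmain] with n hn
  intro L hL S hS
  obtain ⟨k, h1, h2, h3, h4⟩ := hn L hL S hS
  refine ⟨k, h1, h2, ?_, h4⟩
  intro h
  apply h3
  simp only [hd]
  rw [if_neg (by omega), h, sub_self]

end Pool.Agent.DigitG
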