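import Mathlib
import Pool.Agent.DigitG.Pattern

open Finset Filter

namespace Pool.Agent.DigitG

open Pool.Agent.SqrtDC

/-- the binary digits of `√2` (with `e 0 = 1`) -/
noncomputable def bin (k : ℕ) : ℤ := if k = 0 then 1 else ⌊Real.sqrt 2 * 2^k⌋ % 2

lemma bin_abs (k : ℕ) : |bin k| ≤ ((1 : ℕ) : ℤ) := by
  unfold bin
  split_ifs
  · simp
  · have := Int.emod_two_eq (⌊Real.sqrt 2 * 2^k⌋)
    rcases this with h | h <;> rw [h] <;> norm_num

lemma bin_sum : HasSum (fun k => (bin k : ℝ) / 2^k) (((1 : ℚ) : ℝ) * Real.sqrt 2 + ((0 : ℚ) : ℝ)) := by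
  have h1 := (hasSum_shift 0).add (hasSum_two 1 0)
  have hF : F 0 = 1 := by
    unfold F
    rw [Int.floor_eq_iff]
    have h2 : (1:ℝ) ≤ Real.sqrt 2 := by
      rw [Real.one_le_sqrt]; norm_num
    have h3 : Real.sqrt 2 < 2 := by
      rw [Real.sqrt_lt' (by norm_num)]; norm_num
    constructor
    · push_cast; linarith
    · push_cast; linarith
  have hval : (2:ℝ)^0 * Real.sqrt 2 - F 0 + (1 + 0)
      = ((1 : ℚ) : ℝ) * Real.sqrt 2 + ((0 : ℚ) : ℝ) := by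
    rw [hF]; push_cast; ring
  rw [hval] at h1
  refine hasSum_congr' (fun k => ?_) h1
  unfold bin
  by_cases hk : k = 0
  · subst hk; simp
  · rw [if_neg hk, if_neg hk, if_neg hk]
    simp

/-- counting form for the binary digits of `√2` in the window `(M, n]`, `M ≤ n exp(-(log n)^δ)` -/
theorem bin_window (l : ℕ) (c : ℕ → ℤ) (c' : ℤ) (hc : ∑ j ∈ range (l+1), c j * 2^j ≠ 0)
    (A : ℕ) (δ : ℝ) (hδ : 0 < δ) :
    ∀ᶠ n : ℕ in atTop, ∀ M : ℕ, (M : ℝ) * Real.exp ((Real.log n)^δ) ≤ n →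
      (Real.log n)^A ≤ (((Finset.Ioc M n).filter (fun k : ℕ =>
      ∑ j ∈ range (l+1), c j * (⌊Real.sqrt 2 * 2^(k+j)⌋ % 2) ≠ c')).card : ℝ) := by
  have h := pattern_cov 1 0 one_ne_zero 1 bin bin_abs bin_sum l c c' hc (A+1) δ hδ
  have hlog : ∀ᶠ n : ℕ in atTop, (2:ℝ) ≤ Real.log n :=
    (Real.tendsto_log_atTop.comp tendsto_natCast_atTop_atTop).eventually_ge_atTop 2
  filter_upwards [h, hlog] with n hn h2 M hM
  by_contra hcon
  push Not at hcon
  set T := (Finset.Ioc M n).filter (fun k : ℕ =>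
      ∑ j ∈ range (l+1), c j * (⌊Real.sqrt 2 * 2^(k+j)⌋ % 2) ≠ c') with hT
  have h3 : (1:ℝ) ≤ Real.log n ^ A := one_le_pow₀ (by linarith)
  have h4 : Real.log n ^ A + 1 ≤ Real.log n ^ (A+1) := by
    rw [pow_succ]; nlinarith
  have hcard : (#(insert 0 T) : ℝ) ≤ Real.log n ^ (A+1) := by
    have : (#(insert 0 T) : ℝ) ≤ (#T : ℝ) + 1 := by exact_mod_cast Finset.card_insert_le _ _
    linarith
  obtain ⟨k, hk1, hkn, hk0, hkS⟩ := hn M hM (insert 0 T) hcard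
  have h5 := hkS 0 (Finset.mem_insert_self _ _)
  have hkT : k ∈ T := by
    rw [hT, Finset.mem_filter, Finset.mem_Ioc]
    refine ⟨⟨by omega, hkn⟩, ?_⟩
    intro hcc
    apply hk0
    rw [← hcc]
    refine Finset.sum_congr rfl fun j _ => ?_
    unfold bin
    rw [if_neg (by omega)]
  have h6 := hkS k (Finset.mem_insert_of_mem hkT)
  omega

/-- digit changes -/
theorem digit_changes (A : ℕ) : ∀ᶠ n : ℕ in atTop, (Real.log n)^A ≤
      (((Finset.Icc 1 n).filter (fun k : ℕ =>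
      ⌊Real.sqrt 2 * 2^k⌋ % 2 ≠ ⌊Real.sqrt 2 * 2^(k+1)⌋ % 2)).card : ℝ) := by
  have h := bin_window 1 (fun j => if j = 0 then 1 else -1) 0 (by simp [Finset.sum_range_succ]) A 1
    one_pos
  filter_upwards [h] with n hn
  have h1 := hn 0 (by simp)
  refine h1.trans ?_
  have : (Finset.Ioc 0 n).filter (fun k : ℕ => ∑ j ∈ range (1+1), (fun j => if j = 0 then (1:ℤ) else -1) j
      * (⌊Real.sqrt 2 * 2^(k+j)⌋ % 2) ≠ 0) ⊆ (Finset.Icc 1 n).filter (fun k : ℕ =>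
      ⌊Real.sqrt 2 * 2^k⌋ % 2 ≠ ⌊Real.sqrt 2 * 2^(k+1)⌋ % 2) := by
    intro k hk
    rw [Finset.mem_filter, Finset.mem_Ioc] at hk
    rw [Finset.mem_filter, Finset.mem_Icc]
    refine ⟨⟨by omega, hk.1.2⟩, ?_⟩
    intro heq
    apply hk.2
    simp only [Finset.sum_range_succ, Finset.sum_range_zero]
    simp only [if_true]
    rw [Nat.add_zero, heq]
    simp
  exact_mod_cast Finset.card_le_card this

end Pool.Agent.DigitG
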